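import Mathlib
import Pool.Agent.Helper30.TB.Def

set_option autoImplicit false

/-!
The helical decomposition of a vector field on the torus, in terms of the Fourier coefficients.
-/

namespace Pool.Agent.Helper30.HL

open MeasureTheory Set Filter Topology Pool.Agent.Helper30.TB

/-- the vector product `k × a` -/
def cross (k : Wv) (a : Fin 3 → ℂ) : Fin 3 → ℂ :=
  ![(k 1 : ℂ) * a 2 - (k 2 : ℂ) * a 1, (k 2 : ℂ) * a 0 - (k 0 : ℂ) * a 2,
    (k 0 : ℂ) * a 1 - (k 1 : ℂ) * a 0]

/-- the vorticity: `ω_k = i k × u_k` -/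
noncomputable def vort (u : Fld) : Fld := fun k j => Complex.I * cross k (u k) j

/-- The helical component of the sign `σ = ±1`: `(u_k + σ i k × u_k / |k|) / 2`. The field `u` is the
sum of the components `u⁺` and `u⁻`, and the curl acts on `u_k^±` as the multiplication by `± |k|`
(see `vort_hel`). -/
noncomputable def hel (σ : ℝ) (u : Fld) : Fld :=
  fun k j => (u k j + (σ : ℂ) * vort u k j / ((√(nsq k) : ℝ) : ℂ)) / 2

/-- the square of the homogeneous Sobolev norm of order `r`: `∑ |k|^(2r) |u_k|²` -/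
noncomputable def sob (r : ℝ) (u : Fld) : ℝ := ∑' k, nsq k ^ r * msq u k

/-- `u` is a strong solution before the time `T`: for every `T' < T` it is in `L^∞(0,T';H¹)` and in
`L²(0,T';H²)`. -/
def IsStrongBefore (T : ℝ) (u : ℝ → Fld) : Prop :=
  ∀ T' : ℝ, 0 < T' → T' < T → ∃ C : ℝ, ∀ S : Finset Wv,
    (∀ t ∈ Icc 0 T', ∑ k ∈ S, nsq k * msq (u t) k ≤ C) ∧
    ∫ t in (0 : ℝ)..T', ∑ k ∈ S, nsq k ^ 2 * msq (u t) k ≤ C

end Pool.Agent.Helper30.HL
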