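import Mathlib
import Pool.Agent.Helper30.HL.Def
import Pool.Agent.Helper30.TB.Flux

set_option autoImplicit false

/-!
Algebra of the helical decomposition.
-/

namespace Pool.Agent.Helper30.HL

open MeasureTheory Set Filter Topology Pool.Agent.Helper30.TB

theorem dt_cross (k : Wv) (a : Fin 3 → ℂ) : dt (cross k a) k = 0 := by
  unfold dt cross
  rw [Fin.sum_univ_three]
  simp only [Matrix.cons_val_zero, Matrix.cons_val_one, Matrix.cons_val]
  ring

theorem dt_vort (u : Fld) (k : Wv) : dt (vort u k) k = 0 := by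
  have h := dt_cross k (u k)
  unfold dt at h ⊢
  unfold vort
  simp_rw [mul_assoc]
  rw [← Finset.mul_sum, h, mul_zero]

/-- the curl is symmetric -/
theorem herm (k : Wv) (a b : Fin 3 → ℂ) :
    ∑ j, (starRingEnd ℂ) (a j) * (Complex.I * cross k b j)
      = ∑ j, (starRingEnd ℂ) (Complex.I * cross k a j) * b j := by
  unfold cross
  simp only [Fin.sum_univ_three, Matrix.cons_val_zero, Matrix.cons_val_one, Matrix.cons_val,
    map_mul, map_sub, Complex.conj_I, map_intCast]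
  ring

theorem msq_cross (k : Wv) (a : Fin 3 → ℂ) (h : dt a k = 0) :
    ∑ j, ‖cross k a j‖ ^ 2 = nsq k * ∑ j, ‖a j‖ ^ 2 := by
  have hre : (a 0).re * k 0 + (a 1).re * k 1 + (a 2).re * k 2 = 0 := by
    have := congrArg Complex.re h
    unfold dt at this
    simpa [Fin.sum_univ_three] using this
  have him : (a 0).im * k 0 + (a 1).im * k 1 + (a 2).im * k 2 = 0 := by
    have := congrArg Complex.im h
    unfold dt at this
    simpa [Fin.sum_univ_three] using this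
  unfold cross nsq
  simp only [Fin.sum_univ_three, Matrix.cons_val_zero, Matrix.cons_val_one, Matrix.cons_val,
    ← Complex.normSq_eq_norm_sq, Complex.normSq_apply, Complex.sub_re, Complex.sub_im,
    Complex.mul_re, Complex.mul_im, Complex.intCast_re, Complex.intCast_im]
  linear_combination (-(a 0).re * k 0 - (a 1).re * k 1 - (a 2).re * k 2) * hre
    + (-(a 0).im * k 0 - (a 1).im * k 1 - (a 2).im * k 2) * him

theorem msq_vort {u : Fld} (k : Wv) (h : dt (u k) k = 0) :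
    msq (vort u) k = nsq k * msq u k := by
  unfold msq vort
  simp only [norm_mul, Complex.norm_I, one_mul]
  exact msq_cross k (u k) h

/-- the helicity of one mode -/
noncomputable def he (u : Fld) (k : Wv) : ℝ :=
  (∑ j, (starRingEnd ℂ) (u k j) * vort u k j).re

theorem abs_he_le {u : Fld} (hu : Adm u) (k : Wv) : |he u k| ≤ √(nsq k) * msq u k := by
  unfold he
  refine (Complex.abs_re_le_norm _).trans ((norm_inner_le (u k) (vort u k)).trans ?_)
  have h1 : ∑ j, ‖vort u k j‖ ^ 2 = nsq k * msq u k := msq_vort k (hu.div k)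
  rw [h1, Real.sqrt_mul (nsq_nonneg k)]
  have h2 : √(msq u k) * √(msq u k) = msq u k := Real.mul_self_sqrt (msq_nonneg u k)
  show √(msq u k) * (√(nsq k) * √(msq u k)) ≤ _
  rw [show √(msq u k) * (√(nsq k) * √(msq u k)) = √(nsq k) * (√(msq u k) * √(msq u k)) by ring, h2]

theorem nsq_pos {k : Wv} (hk : k ≠ 0) : 0 < nsq k := by
  rcases (nsq_nonneg k).eq_or_lt with h | h
  · exfalso
    apply hk
    unfold nsq at h
    have h2 := (Finset.sum_eq_zero_iff_of_nonneg fun i _ => sq_nonneg ((k i : ℝ))).mp h.symm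
    funext i
    have h3 := h2 i (Finset.mem_univ i)
    have h4 : (k i : ℝ) = 0 := by
      rcases pow_eq_zero_iff (two_ne_zero) |>.mp h3 with h5
      exact h5
    exact_mod_cast h4
  · exact h

/-- the energy of the helical components -/
theorem msq_hel {u : Fld} (hu : Adm u) {σ : ℝ} (hσ : σ ^ 2 = 1) (k : Wv) :
    msq (hel σ u) k = (msq u k + σ * he u k / √(nsq k)) / 2 := by
  by_cases hk : k = 0
  · subst hk
    have h0 : u 0 = 0 := hu.zero
    have h1 : nsq (0 : Wv) = 0 := by simp [nsq]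
    have h2 : msq (hel σ u) 0 = 0 := by
      unfold msq hel
      simp [h0, h1]
    have h3 : msq u 0 = 0 := by
      unfold msq
      simp [h0]
    rw [h2, h3, h1, Real.sqrt_zero, div_zero, add_zero, zero_div]
  have hp : 0 < √(nsq k) := Real.sqrt_pos.mpr (nsq_pos hk)
  set s := √(nsq k) with hs
  have hss : s * s = nsq k := Real.mul_self_sqrt (nsq_nonneg k)
  have e4 : ‖(2 : ℂ)‖ = 2 := by simp
  have e3 : (σ / s) ^ 2 = 1 / (s * s) := by
    rw [div_pow, hσ, sq]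
  have e1 : ∀ j, ‖hel σ u k j‖ ^ 2 = (‖u k j‖ ^ 2 + ‖vort u k j‖ ^ 2 / nsq k
      + 2 * (σ / s) * ((starRingEnd ℂ) (u k j) * vort u k j).re) / 4 := by
    intro j
    have e2 : hel σ u k j = (u k j + ((σ / s : ℝ) : ℂ) * vort u k j) / 2 := by
      unfold hel
      rw [← hs]
      push_cast
      ring
    have e5 : ‖u k j + ((σ / s : ℝ) : ℂ) * vort u k j‖ ^ 2 = ‖u k j‖ ^ 2
        + (σ / s) ^ 2 * ‖vort u k j‖ ^ 2
        + 2 * (σ / s) * ((starRingEnd ℂ) (u k j) * vort u k j).re := by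
      simp only [← Complex.normSq_eq_norm_sq, Complex.normSq_apply, Complex.add_re,
        Complex.add_im, Complex.mul_re, Complex.mul_im, Complex.ofReal_re, Complex.ofReal_im,
        Complex.conj_re, Complex.conj_im]
      ring
    rw [e2, norm_div, div_pow, e4, e5, e3, ← hss]
    ring
  have h1 : ∑ j, ‖vort u k j‖ ^ 2 = nsq k * msq u k := msq_vort k (hu.div k)
  have h2 : ∑ j, ((starRingEnd ℂ) (u k j) * vort u k j).re = he u k := by
    unfold he
    rw [Complex.re_sum]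
  have h3 : msq (hel σ u) k = ∑ j, ‖hel σ u k j‖ ^ 2 := rfl
  have h4 : ∑ j, ‖u k j‖ ^ 2 = msq u k := rfl
  rw [h3]
  simp_rw [e1]
  rw [← Finset.sum_div, Finset.sum_add_distrib, Finset.sum_add_distrib, ← Finset.sum_div,
    ← Finset.mul_sum, h1, h2, h4, mul_div_cancel_left₀ _ (nsq_pos hk).ne']
  ring

/-- the curl of the helical components: `curl u^σ = σ |k| u^σ` -/
theorem vort_hel {u : Fld} (hu : Adm u) {σ : ℝ} (hσ : σ ^ 2 = 1) (k : Wv) (j : Fin 3) :
    vort (hel σ u) k j = ((σ * √(nsq k) : ℝ) : ℂ) * hel σ u k j := by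
  by_cases hk : k = 0
  · subst hk
    unfold vort cross
    fin_cases j <;> simp [nsq]
  have hp : 0 < √(nsq k) := Real.sqrt_pos.mpr (nsq_pos hk)
  obtain ⟨s, hs⟩ : ∃ s : ℝ, s = √(nsq k) := ⟨_, rfl⟩
  rw [← hs] at hp ⊢
  have hss : s * s = nsq k := by
    rw [hs]
    exact Real.mul_self_sqrt (nsq_nonneg k)
  have hsc : (s : ℂ) ≠ 0 := by exact_mod_cast hp.ne'
  have hssc : (s : ℂ) * s = (k 0 : ℂ) ^ 2 + (k 1 : ℂ) ^ 2 + (k 2 : ℂ) ^ 2 := by
    have h1 : ((s * s : ℝ) : ℂ) = ((nsq k : ℝ) : ℂ) := by rw [hss]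
    unfold nsq at h1
    rw [Fin.sum_univ_three] at h1
    push_cast at h1
    exact h1
  have hσc : (σ : ℂ) ^ 2 = 1 := by exact_mod_cast hσ
  have hd : u k 0 * (k 0 : ℂ) + u k 1 * (k 1 : ℂ) + u k 2 * (k 2 : ℂ) = 0 := by
    have := hu.div k
    unfold dt at this
    rwa [Fin.sum_univ_three] at this
  have hI : Complex.I ^ 2 = -1 := Complex.I_sq
  have hh : ∀ i, 2 * (s : ℂ) * hel σ u k i = s * u k i + σ * (Complex.I * cross k (u k) i) := by
    intro i
    unfold hel vort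
    rw [← hs]
    field_simp
  have h0 := hh 0
  have h1 := hh 1
  have h2 := hh 2
  have c0 : cross k (u k) 0 = (k 1 : ℂ) * u k 2 - (k 2 : ℂ) * u k 1 := rfl
  have c1 : cross k (u k) 1 = (k 2 : ℂ) * u k 0 - (k 0 : ℂ) * u k 2 := rfl
  have c2 : cross k (u k) 2 = (k 0 : ℂ) * u k 1 - (k 1 : ℂ) * u k 0 := rfl
  rw [c0] at h0
  rw [c1] at h1
  rw [c2] at h2
  have h2s : (2 * (s : ℂ)) ≠ 0 := mul_ne_zero two_ne_zero hsc
  refine mul_left_cancel₀ h2s ?_
  unfold vort cross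
  rw [Complex.ofReal_mul]
  fin_cases j
  · show 2 * (s : ℂ) * (Complex.I * ((k 1 : ℂ) * hel σ u k 2 - (k 2 : ℂ) * hel σ u k 1))
      = 2 * (s : ℂ) * ((σ : ℂ) * s * hel σ u k 0)
    linear_combination Complex.I * (k 1 : ℂ) * h2 - Complex.I * (k 2 : ℂ) * h1
      - (σ : ℂ) * s * h0
      - (Complex.I * s * ((k 1 : ℂ) * u k 2 - (k 2 : ℂ) * u k 1)) * hσc
      + (σ : ℂ) * ((k 1 : ℂ) * ((k 0 : ℂ) * u k 1 - (k 1 : ℂ) * u k 0)
        - (k 2 : ℂ) * ((k 2 : ℂ) * u k 0 - (k 0 : ℂ) * u k 2)) * hI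
      - (σ : ℂ) * (k 0 : ℂ) * hd - (σ : ℂ) * u k 0 * hssc
  · show 2 * (s : ℂ) * (Complex.I * ((k 2 : ℂ) * hel σ u k 0 - (k 0 : ℂ) * hel σ u k 2))
      = 2 * (s : ℂ) * ((σ : ℂ) * s * hel σ u k 1)
    linear_combination Complex.I * (k 2 : ℂ) * h0 - Complex.I * (k 0 : ℂ) * h2
      - (σ : ℂ) * s * h1
      - (Complex.I * s * ((k 2 : ℂ) * u k 0 - (k 0 : ℂ) * u k 2)) * hσc
      + (σ : ℂ) * ((k 2 : ℂ) * ((k 1 : ℂ) * u k 2 - (k 2 : ℂ) * u k 1)
        - (k 0 : ℂ) * ((k 0 : ℂ) * u k 1 - (k 1 : ℂ) * u k 0)) * hI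
      - (σ : ℂ) * (k 1 : ℂ) * hd - (σ : ℂ) * u k 1 * hssc
  · show 2 * (s : ℂ) * (Complex.I * ((k 0 : ℂ) * hel σ u k 1 - (k 1 : ℂ) * hel σ u k 0))
      = 2 * (s : ℂ) * ((σ : ℂ) * s * hel σ u k 2)
    linear_combination Complex.I * (k 0 : ℂ) * h1 - Complex.I * (k 1 : ℂ) * h0
      - (σ : ℂ) * s * h2
      - (Complex.I * s * ((k 0 : ℂ) * u k 1 - (k 1 : ℂ) * u k 0)) * hσc
      + (σ : ℂ) * ((k 0 : ℂ) * ((k 2 : ℂ) * u k 0 - (k 0 : ℂ) * u k 2)
        - (k 1 : ℂ) * ((k 1 : ℂ) * u k 2 - (k 2 : ℂ) * u k 1)) * hI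
      - (σ : ℂ) * (k 2 : ℂ) * hd - (σ : ℂ) * u k 2 * hssc

end Pool.Agent.Helper30.HL
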