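import Mathlib
import Pool.Agent.Helper30.TB.Flux

set_option autoImplicit false

/-!
A lattice sum, and the sum of the amplitudes of a field with square integrable second derivatives.
-/

namespace Pool.Agent.Helper30.HL

open MeasureTheory Set Filter Topology Pool.Agent.Helper30.TB

/-- the one dimensional weight -/
noncomputable def wt (n : ℤ) : ℝ := (1 + (n : ℝ) ^ 2) ^ (-(2 / 3) : ℝ)

theorem wt_nonneg (n : ℤ) : 0 ≤ wt n := Real.rpow_nonneg (by positivity) _

theorem summable_wt : Summable wt := by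
  have h1 : Summable fun n : ℤ => |(n : ℝ)| ^ (-(4 / 3) : ℝ) :=
    Real.summable_abs_int_rpow (by norm_num)
  have h2 : Summable fun n : ℤ => |(n : ℝ)| ^ (-(4 / 3) : ℝ) + ({0} : Set ℤ).indicator (fun _ => (1 : ℝ)) n :=
    h1.add (summable_of_hasFiniteSupport ((Set.finite_singleton (0 : ℤ)).subset fun n hn => by
      by_contra hc
      exact hn (indicator_of_notMem hc _)))
  refine Summable.of_nonneg_of_le wt_nonneg (fun n => ?_) h2
  unfold wt
  by_cases hn : n = 0
  · subst hn
    simp only [Int.cast_zero, abs_zero, mem_singleton_iff, indicator_of_mem]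
    norm_num
  · have hn' : (0 : ℝ) < |(n : ℝ)| := abs_pos.mpr (by exact_mod_cast hn)
    rw [indicator_of_notMem (by simpa using hn), add_zero]
    have e : |(n : ℝ)| ^ (-(4 / 3) : ℝ) = (|(n : ℝ)| ^ 2) ^ (-(2 / 3) : ℝ) := by
      rw [← Real.rpow_natCast, ← Real.rpow_mul hn'.le]
      norm_num
    rw [e, sq_abs]
    refine Real.rpow_le_rpow_of_nonpos ?_ (by linarith) (by norm_num)
    have := sq_pos_of_pos hn'
    rwa [sq_abs] at this

/-- the weight `(1 + |k|²)^(-2)` -/
noncomputable def wz (k : Wv) : ℝ := 1 / (1 + nsq k) ^ 2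

theorem wz_nonneg (k : Wv) : 0 ≤ wz k := by
  have := nsq_nonneg k
  unfold wz
  positivity

theorem wz_le (k : Wv) : wz k ≤ ∏ i, wt (k i) := by
  have h0 := nsq_nonneg k
  have h1 : ∀ i, (1 + nsq k) ^ (-(2 / 3) : ℝ) ≤ wt (k i) := by
    intro i
    unfold wt
    refine Real.rpow_le_rpow_of_nonpos (by positivity) ?_ (by norm_num)
    have : (k i : ℝ) ^ 2 ≤ nsq k :=
      Finset.single_le_sum (f := fun i => (k i : ℝ) ^ 2) (fun _ _ => sq_nonneg _)
        (Finset.mem_univ i)
    linarith
  have h2 : wz k = ∏ _i : Fin 3, (1 + nsq k) ^ (-(2 / 3) : ℝ) := by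
    rw [Finset.prod_const, Finset.card_univ, Fintype.card_fin, ← Real.rpow_natCast,
      ← Real.rpow_mul (by linarith)]
    unfold wz
    rw [one_div, ← Real.rpow_natCast, ← Real.rpow_neg (by linarith)]
    norm_num
  rw [h2]
  exact Finset.prod_le_prod (fun i _ => Real.rpow_nonneg (by linarith) _) fun i _ => h1 i

theorem summable_wz : Summable wz := by
  classical
  refine summable_of_sum_le (c := (∑' n, wt n) ^ 3) wz_nonneg fun S => ?_
  -- a box which contains `S`
  let P : Fin 3 → Finset ℤ := fun i => S.image fun k => k i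
  have h1 : S ⊆ Fintype.piFinset P := by
    intro k hk
    rw [Fintype.mem_piFinset]
    exact fun i => Finset.mem_image_of_mem _ hk
  calc ∑ k ∈ S, wz k ≤ ∑ k ∈ Fintype.piFinset P, wz k :=
        Finset.sum_le_sum_of_subset_of_nonneg h1 fun k _ _ => wz_nonneg k
    _ ≤ ∑ k ∈ Fintype.piFinset P, ∏ i, wt (k i) := Finset.sum_le_sum fun k _ => wz_le k
    _ = ∏ i, ∑ n ∈ P i, wt n := (Finset.prod_univ_sum P fun _ n => wt n).symm
    _ ≤ ∏ _i : Fin 3, ∑' n, wt n := by
        refine Finset.prod_le_prod (fun i _ => Finset.sum_nonneg fun n _ => wt_nonneg n)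
          fun i _ => ?_
        exact summable_wt.sum_le_tsum _ fun n _ => wt_nonneg n
    _ = _ := by rw [Finset.prod_const, Finset.card_univ, Fintype.card_fin]

/-- the lattice sum -/
noncomputable def zc : ℝ := ∑' k, wz k

theorem zc_nonneg : 0 ≤ zc := tsum_nonneg wz_nonneg

/-- the square of the norm of the second derivatives -/
noncomputable def pal (u : Fld) : ℝ := ∑' k, nsq k ^ 2 * msq u k

theorem nsq_ge_one {k : Wv} (hk : k ≠ 0) : 1 ≤ nsq k := by
  obtain ⟨i, hi⟩ : ∃ i, k i ≠ 0 := by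
    by_contra h
    push Not at h
    exact hk (funext h)
  have h1 : (1 : ℝ) ≤ (k i : ℝ) ^ 2 := by
    have : (1 : ℤ) ≤ (k i) ^ 2 := by
      have := sq_pos_of_ne_zero hi
      omega
    exact_mod_cast this
  exact h1.trans (Finset.single_le_sum (f := fun i => (k i : ℝ) ^ 2) (fun _ _ => sq_nonneg _)
    (Finset.mem_univ i))

theorem am_le_wz {u : Fld} (hu : Adm u) (k : Wv) :
    am u k ≤ wz k / 2 + 2 * (nsq k ^ 2 * msq u k) := by
  by_cases hk : k = 0
  · subst hk
    have h3 : msq u 0 = 0 := by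
      unfold msq
      simp [hu.zero]
    have h4 : am u 0 = 0 := by unfold am; rw [h3, Real.sqrt_zero]
    rw [h4, h3]
    have := wz_nonneg 0
    simp only [mul_zero, add_zero]
    linarith
  · have h1 := nsq_ge_one hk
    have h2 := am_nonneg u k
    have h3 := am_sq u k
    have h4 : am u k ≤ (1 / (1 + nsq k) ^ 2 + (1 + nsq k) ^ 2 * am u k ^ 2) / 2 := by
      have h5 : 0 < 1 + nsq k := by linarith
      have h6 : (1 / (1 + nsq k) - (1 + nsq k) * am u k) ^ 2 ≥ 0 := sq_nonneg _
      have h7 : (1 / (1 + nsq k) - (1 + nsq k) * am u k) ^ 2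
          = 1 / (1 + nsq k) ^ 2 + (1 + nsq k) ^ 2 * am u k ^ 2 - 2 * am u k := by
        field_simp
        ring
      linarith
    have h5 : (1 + nsq k) ^ 2 ≤ 4 * nsq k ^ 2 := by nlinarith
    have h6 : (1 + nsq k) ^ 2 * am u k ^ 2 ≤ 4 * nsq k ^ 2 * am u k ^ 2 :=
      mul_le_mul_of_nonneg_right h5 (sq_nonneg _)
    unfold wz
    rw [← h3]
    linarith

theorem summable_am {u : Fld} (hu : Adm u) (h2 : Summable fun k => nsq k ^ 2 * msq u k) :
    Summable (am u) :=
  Summable.of_nonneg_of_le (am_nonneg u) (am_le_wz hu)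
    ((summable_wz.div_const 2).add (h2.mul_left 2))

theorem tsum_am_le {u : Fld} (hu : Adm u) (h2 : Summable fun k => nsq k ^ 2 * msq u k) :
    ∑' k, am u k ≤ zc / 2 + 2 * pal u := by
  have h3 := (summable_am hu h2).tsum_le_tsum (am_le_wz hu)
    ((summable_wz.div_const 2).add (h2.mul_left 2))
  rw [(summable_wz.div_const 2).tsum_add (h2.mul_left 2), tsum_div_const, tsum_mul_left] at h3
  exact h3

theorem nsq_mul_le {u : Fld} (hu : Adm u) (k : Wv) : nsq k * msq u k ≤ nsq k ^ 2 * msq u k := by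
  by_cases hk : k = 0
  · subst hk
    have h3 : msq u 0 = 0 := by
      unfold msq
      simp [hu.zero]
    rw [h3, mul_zero, mul_zero]
  · have h1 := nsq_ge_one hk
    have h2 := msq_nonneg u k
    have : nsq k ≤ nsq k ^ 2 := by nlinarith
    exact mul_le_mul_of_nonneg_right this h2

theorem summable_nsq {u : Fld} (hu : Adm u) (h2 : Summable fun k => nsq k ^ 2 * msq u k) :
    Summable fun k => nsq k * msq u k :=
  Summable.of_nonneg_of_le (fun k => mul_nonneg (nsq_nonneg k) (msq_nonneg u k)) (nsq_mul_le hu) h2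

end Pool.Agent.Helper30.HL
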