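import Mathlib
import Pool.Agent.Helper30.HL.Lat
import Pool.Agent.Helper30.HL.Alg
import Pool.Agent.Helper30.TB.Time

set_option autoImplicit false

/-!
The helicity flux of a field with square integrable second derivatives.
-/

namespace Pool.Agent.Helper30.HL

open MeasureTheory Set Filter Topology Pool.Agent.Helper30.TB

/-- the amplitudes of the vorticity -/
noncomputable def wa (u : Fld) (k : Wv) : ℝ := √(nsq k) * am u k

theorem wa_nonneg (u : Fld) (k : Wv) : 0 ≤ wa u k := mul_nonneg (Real.sqrt_nonneg _) (am_nonneg _ _)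

theorem wa_sq (u : Fld) (k : Wv) : wa u k ^ 2 = nsq k * msq u k := by
  unfold wa
  rw [mul_pow, Real.sq_sqrt (nsq_nonneg k), am_sq]

theorem am_neg {u : Fld} (hu : Adm u) (k : Wv) : am u (-k) = am u k := by
  unfold am msq
  simp_rw [hu.real k, RCLike.norm_conj]

theorem wa_neg {u : Fld} (hu : Adm u) (k : Wv) : wa u (-k) = wa u k := by
  unfold wa
  rw [nsq_neg, am_neg hu]

theorem am_vort {u : Fld} (hu : Adm u) (k : Wv) : am (vort u) k = wa u k := by
  unfold am wa
  rw [msq_vort k (hu.div k), Real.sqrt_mul (nsq_nonneg k)]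
  rfl

/-- the bilinear scalar product -/
noncomputable def bd (a b : Fin 3 → ℂ) : ℂ := ∑ j, a j * b j

theorem norm_bd_le (a b : Fin 3 → ℂ) :
    ‖bd a b‖ ≤ √(∑ j, ‖a j‖ ^ 2) * √(∑ j, ‖b j‖ ^ 2) := by
  unfold bd
  calc ‖∑ j, a j * b j‖ ≤ ∑ j, ‖a j * b j‖ := norm_sum_le _ _
    _ = ∑ j, ‖a j‖ * ‖b j‖ := Finset.sum_congr rfl fun j _ => norm_mul _ _
    _ ≤ _ := Real.sum_mul_le_sqrt_mul_sqrt _ _ _

/-- the vector product -/
noncomputable def cx (a b : Fin 3 → ℂ) : Fin 3 → ℂ :=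
  ![a 1 * b 2 - a 2 * b 1, a 2 * b 0 - a 0 * b 2, a 0 * b 1 - a 1 * b 0]

/-- the terms of the flux -/
noncomputable def qq (u : Fld) (p : Wv × Wv) : ℂ :=
  dt (u p.1) p.2 * bd (u p.2) (vort u (-(p.1 + p.2)))

/-- the first part of the terms: the triple product -/
noncomputable def qa (u : Fld) (p : Wv × Wv) : ℂ :=
  bd (cx (vort u p.2) (u p.1)) (vort u (-(p.1 + p.2)))

/-- the second part of the terms -/
noncomputable def qb (u : Fld) (p : Wv × Wv) : ℂ :=
  bd (u p.2) (u p.1) * dt (vort u (-(p.1 + p.2))) p.2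

/-- the algebraic identity behind `(u · ∇) u = ω × u + ∇ |u|² / 2` -/
theorem qq_eq (u : Fld) (p : Wv × Wv) : qq u p = -Complex.I * qa u p + qb u p := by
  have hI : Complex.I ^ 2 = -1 := Complex.I_sq
  unfold qq qa qb
  generalize vort u (-(p.1 + p.2)) = w
  unfold dt bd cx vort cross
  simp only [Fin.sum_univ_three, Matrix.cons_val_zero, Matrix.cons_val_one, Matrix.cons_val]
  generalize (p.2 0 : ℂ) = l0
  generalize (p.2 1 : ℂ) = l1
  generalize (p.2 2 : ℂ) = l2
  generalize u p.1 0 = v0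
  generalize u p.1 1 = v1
  generalize u p.1 2 = v2
  generalize u p.2 0 = b0
  generalize u p.2 1 = b1
  generalize u p.2 2 = b2
  generalize w 0 = w0
  generalize w 1 = w1
  generalize w 2 = w2
  ring_nf
  rw [hI]
  ring

/-- the triple product is antisymmetric -/
theorem qa_anti (u : Fld) (k l : Wv) : qa u (k, -(k + l)) = -qa u (k, l) := by
  unfold qa
  have e : -(k + -(k + l)) = l := by abel
  simp only [e]
  generalize vort u l = a
  generalize vort u (-(k + l)) = c
  generalize u k = b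
  unfold bd cx
  simp only [Fin.sum_univ_three, Matrix.cons_val_zero, Matrix.cons_val_one, Matrix.cons_val]
  ring

theorem dt_add (a : Fin 3 → ℂ) (m k : Wv) : dt a (m + k) = dt a m + dt a k := by
  unfold dt
  rw [← Finset.sum_add_distrib]
  refine Finset.sum_congr rfl fun i _ => ?_
  rw [Pi.add_apply]
  push_cast
  ring

theorem qb_anti (u : Fld) (k l : Wv) : qb u (l, k) = -qb u (k, l) := by
  unfold qb
  have e : -(l + k) = -(k + l) := by abel
  simp only [e]
  have h1 : dt (vort u (-(k + l))) (-(k + l)) = 0 := dt_vort u _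
  rw [dt_neg, dt_add] at h1
  have h2 : bd (u k) (u l) = bd (u l) (u k) := by
    unfold bd
    exact Finset.sum_congr rfl fun j _ => mul_comm _ _
  rw [h2]
  have h3 : dt (vort u (-(k + l))) k = -dt (vort u (-(k + l))) l := by
    linear_combination -h1
  rw [h3]
  ring

/-- the dominating function -/
noncomputable def ps (u : Fld) (p : Wv × Wv) : ℝ := am u p.1 * (wa u p.2 * wa u (p.1 + p.2))

theorem ps_nonneg (u : Fld) (p : Wv × Wv) : 0 ≤ ps u p :=
  mul_nonneg (am_nonneg _ _) (mul_nonneg (wa_nonneg _ _) (wa_nonneg _ _))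

theorem norm_qq_le {u : Fld} (hu : Adm u) (p : Wv × Wv) : ‖qq u p‖ ≤ ps u p := by
  unfold qq
  rw [norm_mul]
  have h1 := norm_dt_le (u p.1) p.2
  have h2 := norm_bd_le (u p.2) (vort u (-(p.1 + p.2)))
  have h3 : √(∑ j, ‖vort u (-(p.1 + p.2)) j‖ ^ 2) = wa u (p.1 + p.2) := by
    rw [← wa_neg hu, ← am_vort hu]
    rfl
  rw [h3] at h2
  have h4 : √(∑ j, ‖u p.2 j‖ ^ 2) = am u p.2 := rfl
  have h5 : √(∑ j, ‖u p.1 j‖ ^ 2) = am u p.1 := rfl
  rw [h4] at h2
  rw [h5] at h1
  calc ‖dt (u p.1) p.2‖ * ‖bd (u p.2) (vort u (-(p.1 + p.2)))‖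
      ≤ (am u p.1 * √(nsq p.2)) * (am u p.2 * wa u (p.1 + p.2)) :=
        mul_le_mul h1 h2 (norm_nonneg _) (mul_nonneg (am_nonneg _ _) (Real.sqrt_nonneg _))
    _ = _ := by
        unfold ps wa
        ring

theorem norm_qb_le {u : Fld} (hu : Adm u) (p : Wv × Wv) : ‖qb u p‖ ≤ ps u p := by
  unfold qb
  rw [norm_mul]
  have h1 := norm_dt_le (vort u (-(p.1 + p.2))) p.2
  have h2 := norm_bd_le (u p.2) (u p.1)
  have h3 : √(∑ j, ‖vort u (-(p.1 + p.2)) j‖ ^ 2) = wa u (p.1 + p.2) := by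
    rw [← wa_neg hu, ← am_vort hu]
    rfl
  rw [h3] at h1
  have h4 : √(∑ j, ‖u p.2 j‖ ^ 2) = am u p.2 := rfl
  have h5 : √(∑ j, ‖u p.1 j‖ ^ 2) = am u p.1 := rfl
  rw [h4, h5] at h2
  calc ‖bd (u p.2) (u p.1)‖ * ‖dt (vort u (-(p.1 + p.2))) p.2‖
      ≤ (am u p.2 * am u p.1) * (wa u (p.1 + p.2) * √(nsq p.2)) :=
        mul_le_mul h2 h1 (norm_nonneg _) (mul_nonneg (am_nonneg _ _) (am_nonneg _ _))
    _ = _ := by
        unfold ps wa
        ring

theorem norm_qa_le {u : Fld} (hu : Adm u) (p : Wv × Wv) : ‖qa u p‖ ≤ 2 * ps u p := by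
  have h := qq_eq u p
  have e : qa u p = Complex.I * (qq u p - qb u p) := by
    have hI : Complex.I * Complex.I = -1 := Complex.I_mul_I
    rw [h]
    linear_combination (qa u p) * hI
  rw [e, norm_mul, Complex.norm_I, one_mul]
  have h1 := norm_sub_le (qq u p) (qb u p)
  have h2 := norm_qq_le hu p
  have h3 := norm_qb_le hu p
  linarith

section sums

variable {u : Fld}

theorem sum_wa (hu : Adm u) (h2 : Summable fun k => nsq k ^ 2 * msq u k) :
    Summable fun k => wa u k ^ 2 := by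
  simp_rw [wa_sq]
  exact summable_nsq hu h2

theorem ens_eq (u : Fld) : ens u = ∑' k, wa u k ^ 2 := by
  simp_rw [wa_sq]
  rfl

theorem fib (hu : Adm u) (h2 : Summable fun k => nsq k ^ 2 * msq u k) (k : Wv) :
    (Summable fun l => wa u l * wa u (k + l)) ∧ ∑' l, wa u l * wa u (k + l) ≤ ens u := by
  have h3 := sum_wa hu h2
  have h4 : Summable fun l => wa u (k + l) ^ 2 := (Equiv.addLeft k).summable_iff.mpr h3
  have h5 : ∑' l, wa u (k + l) ^ 2 = ∑' l, wa u l ^ 2 :=
    (Equiv.addLeft k).tsum_eq fun l => wa u l ^ 2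
  have h6 : Summable fun l => wa u l * wa u (k + l) := by
    refine Summable.of_nonneg_of_le (fun l => mul_nonneg (wa_nonneg _ _) (wa_nonneg _ _))
      (fun l => ?_) ((h3.add h4).div_const 2)
    show wa u l * wa u (k + l) ≤ (wa u l ^ 2 + wa u (k + l) ^ 2) / 2
    nlinarith [sq_nonneg (wa u l - wa u (k + l))]
  refine ⟨h6, ?_⟩
  have h7 := h6.tsum_le_tsum (fun l => (show wa u l * wa u (k + l)
    ≤ (wa u l ^ 2 + wa u (k + l) ^ 2) / 2 by nlinarith [sq_nonneg (wa u l - wa u (k + l))]))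
    ((h3.add h4).div_const 2)
  rw [tsum_div_const, h3.tsum_add h4, h5] at h7
  rw [ens_eq]
  linarith

theorem summable_ps (hu : Adm u) (h2 : Summable fun k => nsq k ^ 2 * msq u k) :
    Summable (ps u) := by
  rw [summable_prod_of_nonneg (ps_nonneg u)]
  refine ⟨fun k => ((fib hu h2 k).1).mul_left (am u k), ?_⟩
  refine Summable.of_nonneg_of_le (fun k => tsum_nonneg fun l => ps_nonneg u _) (fun k => ?_)
    ((summable_am hu h2).mul_right (ens u))
  show ∑' l, am u k * (wa u l * wa u (k + l)) ≤ am u k * ens u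
  rw [tsum_mul_left]
  exact mul_le_mul_of_nonneg_left (fib hu h2 k).2 (am_nonneg u k)

theorem tsum_ps_le (hu : Adm u) (h2 : Summable fun k => nsq k ^ 2 * msq u k) :
    ∑' p, ps u p ≤ (zc / 2 + 2 * pal u) * ens u := by
  rw [(summable_ps hu h2).tsum_prod' fun k => ((fib hu h2 k).1).mul_left (am u k)]
  have h3 : ∀ k, ∑' l, ps u (k, l) ≤ am u k * ens u := by
    intro k
    show ∑' l, am u k * (wa u l * wa u (k + l)) ≤ am u k * ens u
    rw [tsum_mul_left]
    exact mul_le_mul_of_nonneg_left (fib hu h2 k).2 (am_nonneg u k)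
  have h4 : Summable fun k => am u k * ens u := (summable_am hu h2).mul_right (ens u)
  have h5 : Summable fun k => ∑' l, ps u (k, l) :=
    Summable.of_nonneg_of_le (fun k => tsum_nonneg fun l => ps_nonneg u _) h3 h4
  refine (h5.tsum_le_tsum h3 h4).trans ?_
  rw [tsum_mul_right]
  have h6 : 0 ≤ ens u := tsum_nonneg fun k => mul_nonneg (nsq_nonneg k) (msq_nonneg u k)
  exact mul_le_mul_of_nonneg_right (tsum_am_le hu h2) h6

/-- the exchange of the second and the third wave vector -/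
def ex1 : Wv × Wv ≃ Wv × Wv where
  toFun p := (p.1, -(p.1 + p.2))
  invFun p := (p.1, -(p.1 + p.2))
  left_inv p := by
    ext1
    · rfl
    · show -(p.1 + -(p.1 + p.2)) = p.2
      abel
  right_inv p := by
    ext1
    · rfl
    · show -(p.1 + -(p.1 + p.2)) = p.2
      abel

theorem tsum_qa (u : Fld) : ∑' p, qa u p = 0 := by
  have h1 : ∑' p, qa u (ex1 p) = ∑' p, qa u p := ex1.tsum_eq (qa u)
  have h2 : ∑' p, qa u (ex1 p) = ∑' p, -qa u p := tsum_congr fun p => qa_anti u p.1 p.2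
  rw [h2, tsum_neg] at h1
  exact self_eq_neg.mp h1.symm

theorem tsum_qb (u : Fld) : ∑' p, qb u p = 0 := by
  have h1 : ∑' p, qb u ((Equiv.prodComm Wv Wv) p) = ∑' p, qb u p :=
    (Equiv.prodComm Wv Wv).tsum_eq (qb u)
  have h2 : ∑' p, qb u ((Equiv.prodComm Wv Wv) p) = ∑' p, -qb u p :=
    tsum_congr fun p => qb_anti u p.1 p.2
  rw [h2, tsum_neg] at h1
  exact self_eq_neg.mp h1.symm

theorem summable_qq (hu : Adm u) (h2 : Summable fun k => nsq k ^ 2 * msq u k) :
    Summable (qq u) :=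
  Summable.of_norm_bounded (summable_ps hu h2) (norm_qq_le hu)

/-- there is no production of helicity -/
theorem tsum_qq (hu : Adm u) (h2 : Summable fun k => nsq k ^ 2 * msq u k) :
    ∑' p, qq u p = 0 := by
  have h3 : Summable (qa u) :=
    Summable.of_norm_bounded ((summable_ps hu h2).mul_left 2) (norm_qa_le hu)
  have h4 : Summable (qb u) := Summable.of_norm_bounded (summable_ps hu h2) (norm_qb_le hu)
  simp_rw [qq_eq]
  rw [(h3.mul_left _).tsum_add h4, tsum_mul_left, tsum_qa, tsum_qb, mul_zero, add_zero]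

/-- the equivalence `(m, k) ↦ (k, m - k)` -/
def ex2 : Wv × Wv ≃ Wv × Wv where
  toFun p := (p.2, p.1 - p.2)
  invFun p := (p.1 + p.2, p.1)
  left_inv p := by
    ext1
    · show p.2 + (p.1 - p.2) = p.1
      abel
    · rfl
  right_inv p := by
    ext1
    · rfl
    · show p.1 + p.2 - p.1 = p.2
      abel

/-- the tested nonlinear term -/
noncomputable def tn (u : Fld) (m : Wv) : ℂ :=
  ∑ j, (starRingEnd ℂ) (vort u m j) * conv u m j

theorem vort_conj (hu : Adm u) (m : Wv) (j : Fin 3) :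
    (starRingEnd ℂ) (vort u m j) = vort u (-m) j := by
  unfold vort cross
  have h := hu.real m
  fin_cases j <;>
  · simp only [Fin.zero_eta, Fin.mk_one, Fin.reduceFinMk, Matrix.cons_val_zero,
      Matrix.cons_val_one, Matrix.cons_val, map_mul, map_sub, Complex.conj_I, map_intCast, h,
      Pi.neg_apply, Int.cast_neg]
    ring

theorem tn_eq (hu : Adm u) (hs : Summable (msq u)) (m : Wv) :
    tn u m = ∑' k, qq u (ex2 (m, k)) := by
  unfold tn conv
  simp_rw [← tsum_mul_left]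
  rw [← Summable.tsum_finsetSum (fun j _ => (summable_term hu hs m j).mul_left _)]
  refine tsum_congr fun k => ?_
  show _ = dt (u k) (m - k) * bd (u (m - k)) (vort u (-(k + (m - k))))
  have e : k + (m - k) = m := by abel
  rw [e]
  unfold bd
  rw [Finset.mul_sum]
  refine Finset.sum_congr rfl fun j _ => ?_
  rw [vort_conj hu]
  ring

theorem hs_of (hu : Adm u) (h2 : Summable fun k => nsq k ^ 2 * msq u k) : Summable (msq u) := by
  refine Summable.of_nonneg_of_le (msq_nonneg u) (fun k => ?_) h2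
  by_cases hk : k = 0
  · subst hk
    have h3 : msq u 0 = 0 := by
      unfold msq
      simp [hu.zero]
    rw [h3, mul_zero]
  · have h1 := nsq_ge_one hk
    have h4 := msq_nonneg u k
    have : 1 ≤ nsq k ^ 2 := by nlinarith
    nlinarith

/-- the helicity flux -/
noncomputable def hf (u : Fld) (N : ℕ) : ℝ := (∑ m ∈ bl N, tn u m).im

theorem hf_lim (hu : Adm u) (h2 : Summable fun k => nsq k ^ 2 * msq u k) :
    Tendsto (fun N => hf u N) atTop (𝓝 0) := by
  have h3 : Summable fun p => qq u (ex2 p) := ex2.summable_iff.mpr (summable_qq hu h2)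
  have h4 : HasSum (fun p => qq u (ex2 p)) 0 := by
    have h5 := h3.hasSum
    rw [ex2.tsum_eq (qq u), tsum_qq hu h2] at h5
    exact h5
  have h6 : HasSum (fun m => ∑' k, qq u (ex2 (m, k))) 0 :=
    h4.prod_fiberwise fun m => (h3.prod_factor m).hasSum
  have h7 : HasSum (fun m => tn u m) 0 := by
    refine h6.congr_fun ?_
    intro m
    exact tn_eq hu (hs_of hu h2) m
  have h8 := (Complex.continuous_im.tendsto _).comp (h7.comp tendsto_bl)
  exact h8

theorem hf_bound (hu : Adm u) (h2 : Summable fun k => nsq k ^ 2 * msq u k) (N : ℕ) :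
    |hf u N| ≤ (zc / 2 + 2 * pal u) * ens u := by
  have h3 : Summable fun p => ps u (ex2 p) := ex2.summable_iff.mpr (summable_ps hu h2)
  have h4 : ∀ m, ‖tn u m‖ ≤ ∑' k, ps u (ex2 (m, k)) := by
    intro m
    rw [tn_eq hu (hs_of hu h2) m]
    exact tsum_of_norm_bounded (h3.prod_factor m).hasSum fun k => norm_qq_le hu _
  have h5 : Summable fun m => ∑' k, ps u (ex2 (m, k)) := h3.prod
  unfold hf
  calc |(∑ m ∈ bl N, tn u m).im| ≤ ‖∑ m ∈ bl N, tn u m‖ := Complex.abs_im_le_norm _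
    _ ≤ ∑ m ∈ bl N, ‖tn u m‖ := norm_sum_le _ _
    _ ≤ ∑ m ∈ bl N, ∑' k, ps u (ex2 (m, k)) := Finset.sum_le_sum fun m _ => h4 m
    _ ≤ ∑' m, ∑' k, ps u (ex2 (m, k)) :=
        h5.sum_le_tsum _ fun m _ => tsum_nonneg fun k => ps_nonneg u _
    _ = ∑' p, ps u (ex2 p) := (h3.tsum_prod' fun m => h3.prod_factor m).symm
    _ = ∑' p, ps u p := ex2.tsum_eq (ps u)
    _ ≤ _ := tsum_ps_le hu h2

end sums

end Pool.Agent.Helper30.HL
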