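import Mathlib
import Pool.Agent.Helper30.HL.Flx
import Pool.Agent.Helper30.TB.Defect

set_option autoImplicit false

/-!
The helicity balance of the part of a weak solution in a ball of the Fourier space.
-/

namespace Pool.Agent.Helper30.HL

open MeasureTheory Set Filter Topology Pool.Agent.Helper30.TB
open scoped ENNReal

section prod

variable {T : ℝ} {x y f g : ℝ → ℂ}

theorem cont_of (hT : 0 ≤ T) (hf : IntervalIntegrable f volume 0 T)
    (hx : ∀ t ∈ Icc 0 T, x t = x 0 + ∫ s in (0 : ℝ)..t, f s) : ContinuousOn x (Icc 0 T) := by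
  have h1 : ContinuousOn (fun t => x 0 + ∫ s in (0 : ℝ)..t, f s) (uIcc 0 T) := by
    refine continuousOn_const.add ?_
    exact intervalIntegral.continuousOn_primitive_interval
      (by rw [← intervalIntegrable_iff']; exact hf)
  rw [uIcc_of_le hT] at h1
  exact h1.congr hx

theorem sub0 {h : ℝ → ℂ} (hh : IntervalIntegrable h volume 0 T) {t : ℝ} (ht : t ∈ Icc 0 T) :
    IntervalIntegrable h volume 0 t := by
  refine hh.mono_set ?_
  rw [uIcc_of_le ht.1, uIcc_of_le (ht.1.trans ht.2)]
  exact Icc_subset_Icc_right ht.2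

theorem sub0r {h : ℝ → ℝ} (hh : IntervalIntegrable h volume 0 T) {t : ℝ} (ht : t ∈ Icc 0 T) :
    IntervalIntegrable h volume 0 t := by
  refine hh.mono_set ?_
  rw [uIcc_of_le ht.1, uIcc_of_le (ht.1.trans ht.2)]
  exact Icc_subset_Icc_right ht.2

/-- the integrability of the product with a continuous function -/
theorem ii_conj (hT : 0 ≤ T) (hg : IntervalIntegrable g volume 0 T)
    (hx : ContinuousOn x (Icc 0 T)) :
    IntervalIntegrable (fun s => ((starRingEnd ℂ) (x s) * g s).re) volume 0 T := by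
  have h1 : IntervalIntegrable (fun s => (starRingEnd ℂ) (x s) * g s) volume 0 T := by
    apply IntervalIntegrable.continuousOn_mul
    · exact hg
    · rw [uIcc_of_le hT]
      exact Complex.continuous_conj.comp_continuousOn hx
  exact ⟨h1.1.re, h1.2.re⟩

/-- the product rule for absolutely continuous functions -/
theorem prod_rule (hT : 0 ≤ T) (hf : IntervalIntegrable f volume 0 T)
    (hg : IntervalIntegrable g volume 0 T)
    (hx : ∀ t ∈ Icc 0 T, x t = x 0 + ∫ s in (0 : ℝ)..t, f s)
    (hy : ∀ t ∈ Icc 0 T, y t = y 0 + ∫ s in (0 : ℝ)..t, g s) {t : ℝ} (ht : t ∈ Icc 0 T) :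
    ((starRingEnd ℂ) (x t) * y t).re = ((starRingEnd ℂ) (x 0) * y 0).re
      + ∫ s in (0 : ℝ)..t, (((starRingEnd ℂ) (x s) * g s).re
        + ((starRingEnd ℂ) (y s) * f s).re) := by
  have hz : ∀ t ∈ Icc 0 T, x t + y t = (x 0 + y 0) + ∫ s in (0 : ℝ)..t, (f s + g s) := by
    intro t ht
    rw [intervalIntegral.integral_add (sub0 hf ht) (sub0 hg ht), hx t ht, hy t ht]
    ring
  have cx := cont_of hT hf hx
  have cy := cont_of hT hg hy
  have h1 := (Pool.Agent.N983.WK.t_SQ T x f hT hf hx).2 t ht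
  have h2 := (Pool.Agent.N983.WK.t_SQ T y g hT hg hy).2 t ht
  have h3 := (Pool.Agent.N983.WK.t_SQ T (fun t => x t + y t) (fun t => f t + g t) hT
    (hf.add hg) hz).2 t ht
  have hp : ∀ a b : ℂ, ((starRingEnd ℂ) a * b).re = (‖a + b‖ ^ 2 - ‖a‖ ^ 2 - ‖b‖ ^ 2) / 2 := by
    intro a b
    simp only [← Complex.normSq_eq_norm_sq, Complex.normSq_apply, Complex.add_re,
      Complex.add_im, Complex.mul_re, Complex.conj_re, Complex.conj_im]
    ring
  have i1 := (sub0r (ii_conj hT hf cx) ht).const_mul 2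
  have i2 := (sub0r (ii_conj hT hg cy) ht).const_mul 2
  have i3 : IntervalIntegrable (fun s => 2 * ((starRingEnd ℂ) (x s + y s) * (f s + g s)).re)
      volume 0 t := (sub0r (ii_conj hT (hf.add hg) (cx.add cy)) ht).const_mul 2
  have e : ∫ s in (0 : ℝ)..t, (((starRingEnd ℂ) (x s) * g s).re
        + ((starRingEnd ℂ) (y s) * f s).re)
      = ((∫ s in (0 : ℝ)..t, 2 * ((starRingEnd ℂ) (x s + y s) * (f s + g s)).re)
        - (∫ s in (0 : ℝ)..t, 2 * ((starRingEnd ℂ) (x s) * f s).re)
        - ∫ s in (0 : ℝ)..t, 2 * ((starRingEnd ℂ) (y s) * g s).re) / 2 := by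
    rw [← intervalIntegral.integral_sub i3 i1, ← intervalIntegral.integral_sub (i3.sub i1) i2,
      ← intervalIntegral.integral_div]
    refine intervalIntegral.integral_congr fun s _ => ?_
    simp only [map_add, Complex.add_re, Complex.add_im, Complex.mul_re, Complex.conj_re,
      Complex.conj_im]
    ring
  rw [e, hp, hp, h1, h2, h3]
  ring

end prod

variable {ν T : ℝ} {u f : ℝ → Fld}

/-- the time derivative of a mode -/
noncomputable def FF (ν : ℝ) (u f : ℝ → Fld) (k : Wv) (j : Fin 3) (s : ℝ) : ℂ :=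
  -((ν * nsq k : ℝ) : ℂ) * u s k j - Complex.I * prj k (conv (u s) k) j + f s k j

theorem ii_FF (hT : 0 ≤ T) (h : IsWeakSolution ν T u f) (k : Wv) (j : Fin 3) :
    IntervalIntegrable (FF ν u f k j) volume 0 T := by
  have h1 := Pool.Agent.N983.WK.eef_rhs Pool.Agent.N983.WK.t_CVB Pool.Agent.N983.WK.t_MSB
    arr_one hT h.toF k j
  simp_rw [rhs_bridge] at h1
  exact h1.add (Pool.Agent.N983.WK.eef_force h.toForce k j)

theorem ii_conv (hT : 0 ≤ T) (h : IsWeakSolution ν T u f) (k : Wv) (j : Fin 3) :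
    IntervalIntegrable (fun s => conv (u s) k j) volume 0 T := by
  have h1 := Pool.Agent.N983.WK.eef_conv Pool.Agent.N983.WK.t_CVB Pool.Agent.N983.WK.t_MSB
    arr_one hT h.toF k j
  simp_rw [conv_bridge] at h1
  exact h1

theorem cross_ii {a b : ℝ} (k : Wv) {F : ℝ → Fin 3 → ℂ}
    (hF : ∀ j, IntervalIntegrable (fun s => F s j) volume a b) (j : Fin 3) :
    IntervalIntegrable (fun s => Complex.I * cross k (F s) j) volume a b := by
  refine IntervalIntegrable.const_mul ?_ _
  unfold cross
  fin_cases j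
  · exact ((hF 2).const_mul _).sub ((hF 1).const_mul _)
  · exact ((hF 0).const_mul _).sub ((hF 2).const_mul _)
  · exact ((hF 1).const_mul _).sub ((hF 0).const_mul _)

theorem cross_int {a b : ℝ} (k : Wv) {F : ℝ → Fin 3 → ℂ}
    (hF : ∀ j, IntervalIntegrable (fun s => F s j) volume a b) (j : Fin 3) :
    ∫ s in a..b, Complex.I * cross k (F s) j
      = Complex.I * cross k (fun j => ∫ s in a..b, F s j) j := by
  rw [intervalIntegral.integral_const_mul]
  congr 1
  unfold cross
  fin_cases j
  · show ∫ s in a..b, ((k 1 : ℂ) * F s 2 - (k 2 : ℂ) * F s 1) = _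
    rw [intervalIntegral.integral_sub ((hF 2).const_mul _) ((hF 1).const_mul _),
      intervalIntegral.integral_const_mul, intervalIntegral.integral_const_mul]
    rfl
  · show ∫ s in a..b, ((k 2 : ℂ) * F s 0 - (k 0 : ℂ) * F s 2) = _
    rw [intervalIntegral.integral_sub ((hF 0).const_mul _) ((hF 2).const_mul _),
      intervalIntegral.integral_const_mul, intervalIntegral.integral_const_mul]
    rfl
  · show ∫ s in a..b, ((k 0 : ℂ) * F s 1 - (k 1 : ℂ) * F s 0) = _
    rw [intervalIntegral.integral_sub ((hF 1).const_mul _) ((hF 0).const_mul _),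
      intervalIntegral.integral_const_mul, intervalIntegral.integral_const_mul]
    rfl

theorem cross_add (k : Wv) (a b : Fin 3 → ℂ) (j : Fin 3) :
    cross k (fun i => a i + b i) j = cross k a j + cross k b j := by
  unfold cross
  fin_cases j <;>
  · simp only [Fin.zero_eta, Fin.mk_one, Fin.reduceFinMk, Matrix.cons_val_zero,
      Matrix.cons_val_one, Matrix.cons_val]
    ring

/-- the equation of the vorticity -/
theorem vort_eqn (hT : 0 ≤ T) (h : IsWeakSolution ν T u f) {k : Wv} (hk : k ≠ 0) (j : Fin 3)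
    {t : ℝ} (ht : t ∈ Icc 0 T) : vort (u t) k j = vort (u 0) k j
      + ∫ s in (0 : ℝ)..t, Complex.I * cross k (fun i => FF ν u f k i s) j := by
  rw [cross_int k fun i => sub0 (ii_FF hT h k i) ht]
  unfold vort
  rw [← mul_add, ← cross_add]
  congr 2
  funext i
  exact h.eqn k hk i t ht

/-- the part of the helicity balance due to the force -/
noncomputable def hw (f u : Fld) (k : Wv) : ℝ := (∑ j, (starRingEnd ℂ) (vort u k j) * f k j).re

theorem he_zero {v : Fld} (hv : Adm v) : he v 0 = 0 := by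
  unfold he
  simp [hv.zero]

theorem vort_zero (v : Fld) (j : Fin 3) : vort v 0 j = 0 := by
  unfold vort cross
  fin_cases j <;> simp

theorem vort_cont (h : IsWeakSolution ν T u f) (k : Wv) (j : Fin 3) :
    ContinuousOn (fun t => vort (u t) k j) (Icc 0 T) := by
  unfold vort cross
  refine continuousOn_const.mul ?_
  fin_cases j
  · exact (continuousOn_const.mul (h.cont k 2)).sub (continuousOn_const.mul (h.cont k 1))
  · exact (continuousOn_const.mul (h.cont k 0)).sub (continuousOn_const.mul (h.cont k 2))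
  · exact (continuousOn_const.mul (h.cont k 1)).sub (continuousOn_const.mul (h.cont k 0))

theorem he_cont (h : IsWeakSolution ν T u f) (k : Wv) :
    ContinuousOn (fun t => he (u t) k) (Icc 0 T) := by
  unfold he
  refine Complex.continuous_re.comp_continuousOn (continuousOn_finsetSum _ fun j _ => ?_)
  exact (Complex.continuous_conj.comp_continuousOn (h.cont k j)).mul (vort_cont h k j)

theorem hw_ii (hT : 0 ≤ T) (h : IsWeakSolution ν T u f) (k : Wv) :
    IntervalIntegrable (fun s => hw (f s) (u s) k) volume 0 T := by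
  have e : (fun s => hw (f s) (u s) k)
      = fun s => ∑ j, ((starRingEnd ℂ) (vort (u s) k j) * f s k j).re := by
    funext s
    unfold hw
    rw [Complex.re_sum]
  rw [e]
  exact Pool.Agent.N983.WK.bal_sumr Finset.univ
    (fun (j : Fin 3) s => ((starRingEnd ℂ) (vort (u s) k j) * f s k j).re) 0 T fun j _ =>
      ii_conj hT (Pool.Agent.N983.WK.eef_force h.toForce k j) (vort_cont h k j)

theorem tn_ii (hT : 0 ≤ T) (h : IsWeakSolution ν T u f) (k : Wv) :
    IntervalIntegrable (fun s => (tn (u s) k).im) volume 0 T := by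
  have h1 : IntervalIntegrable (fun s => tn (u s) k) volume 0 T := by
    unfold tn
    refine Pool.Agent.N983.WK.bal_sum Finset.univ
      (fun (j : Fin 3) s => (starRingEnd ℂ) (vort (u s) k j) * conv (u s) k j) 0 T fun j _ => ?_
    apply IntervalIntegrable.continuousOn_mul
    · exact ii_conv hT h k j
    · rw [uIcc_of_le hT]
      exact Complex.continuous_conj.comp_continuousOn (vort_cont h k j)
  exact ⟨h1.1.im, h1.2.im⟩

theorem tn_zero {v : Fld} : tn v 0 = 0 := by
  unfold tn
  simp [vort_zero]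

/-- **The helicity balance of one mode.** -/
theorem he_bal (hT : 0 ≤ T) (h : IsWeakSolution ν T u f) (k : Wv) {t : ℝ} (ht : t ∈ Icc 0 T) :
    he (u t) k = he (u 0) k + ∫ s in (0 : ℝ)..t,
      (-2 * ν * (nsq k * he (u s) k) + 2 * (tn (u s) k).im + 2 * hw (f s) (u s) k) := by
  have h0 : (0 : ℝ) ∈ Icc 0 T := ⟨le_rfl, hT⟩
  by_cases hk : k = 0
  · subst hk
    rw [he_zero (h.adm t ht), he_zero (h.adm 0 h0), zero_add]
    symm
    refine (intervalIntegral.integral_congr (g := fun _ => (0 : ℝ)) fun s hs => ?_).trans ?_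
    · rw [uIcc_of_le ht.1] at hs
      have hs' : s ∈ Icc 0 T := ⟨hs.1, hs.2.trans ht.2⟩
      show -2 * ν * (nsq 0 * he (u s) 0) + 2 * (tn (u s) 0).im + 2 * hw (f s) (u s) 0 = 0
      rw [he_zero (h.adm s hs'), tn_zero]
      unfold hw
      simp [vort_zero]
    · simp
  have hx : ∀ j, ∀ t ∈ Icc 0 T, u t k j = u 0 k j + ∫ s in (0 : ℝ)..t, FF ν u f k j s :=
    fun j t ht => h.eqn k hk j t ht
  have hF := ii_FF hT h k
  have hG := cross_ii k hF
  have h1 : ∀ j, ((starRingEnd ℂ) (u t k j) * vort (u t) k j).re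
      = ((starRingEnd ℂ) (u 0 k j) * vort (u 0) k j).re
      + ∫ s in (0 : ℝ)..t, (((starRingEnd ℂ) (u s k j)
          * (Complex.I * cross k (fun i => FF ν u f k i s) j)).re
        + ((starRingEnd ℂ) (vort (u s) k j) * FF ν u f k j s).re) := fun j =>
    prod_rule hT (hF j) (hG j) (hx j) (fun t ht => vort_eqn hT h hk j ht) ht
  have h2 : he (u t) k = he (u 0) k + ∑ j, ∫ s in (0 : ℝ)..t, (((starRingEnd ℂ) (u s k j)
          * (Complex.I * cross k (fun i => FF ν u f k i s) j)).re
        + ((starRingEnd ℂ) (vort (u s) k j) * FF ν u f k j s).re) := by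
    unfold he
    rw [Complex.re_sum, Complex.re_sum, ← Finset.sum_add_distrib]
    exact Finset.sum_congr rfl fun j _ => h1 j
  rw [h2, ← intervalIntegral.integral_finsetSum fun j _ =>
    (sub0r (ii_conj hT (hG j) (h.cont k j)) ht).add
      (sub0r (ii_conj hT (hF j) (vort_cont h k j)) ht)]
  congr 1
  refine intervalIntegral.integral_congr fun s hs => ?_
  rw [uIcc_of_le ht.1] at hs
  have hs' : s ∈ Icc 0 T := ⟨hs.1, hs.2.trans ht.2⟩
  show ∑ j, (((starRingEnd ℂ) (u s k j)
          * (Complex.I * cross k (fun i => FF ν u f k i s) j)).re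
        + ((starRingEnd ℂ) (vort (u s) k j) * FF ν u f k j s).re) = _
  rw [Finset.sum_add_distrib, ← Complex.re_sum, ← Complex.re_sum,
    herm k (u s k) (fun i => FF ν u f k i s)]
  have e1 : ∑ j, (starRingEnd ℂ) (Complex.I * cross k (u s k) j) * FF ν u f k j s
      = ∑ j, (starRingEnd ℂ) (vort (u s) k j) * FF ν u f k j s := rfl
  rw [e1]
  have e2 : ∑ j, (starRingEnd ℂ) (vort (u s) k j) * FF ν u f k j s
      = -((ν * nsq k : ℝ) : ℂ) * ∑ j, (starRingEnd ℂ) (vort (u s) k j) * u s k j
        - Complex.I * tn (u s) k + ∑ j, (starRingEnd ℂ) (vort (u s) k j) * f s k j := by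
    have e3 := Pool.Agent.N983.WK.bal_prj k (vort (u s) k) (conv (u s) k) (dt_vort (u s) k)
    have e4 : ∑ j, (starRingEnd ℂ) (vort (u s) k j) * prj k (conv (u s) k) j = tn (u s) k := e3
    rw [← e4, Finset.mul_sum, Finset.mul_sum, ← Finset.sum_sub_distrib, ← Finset.sum_add_distrib]
    refine Finset.sum_congr rfl fun j _ => ?_
    unfold FF
    ring
  have e5 : ∑ j, (starRingEnd ℂ) (vort (u s) k j) * u s k j
      = ∑ j, (starRingEnd ℂ) (u s k j) * vort (u s) k j := by
    rw [show ∑ j, (starRingEnd ℂ) (u s k j) * vort (u s) k j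
      = ∑ j, (starRingEnd ℂ) (u s k j) * (Complex.I * cross k (u s k) j) from rfl, herm]
    rfl
  rw [e2, e5]
  unfold hw he
  rw [Complex.add_re, Complex.sub_re, ← Complex.ofReal_neg, Complex.re_ofReal_mul]
  simp only [Complex.mul_re, Complex.I_re, Complex.I_im, zero_mul, one_mul, zero_sub]
  ring

/-- the helicity balance in a ball -/
theorem he_balN (hT : 0 ≤ T) (h : IsWeakSolution ν T u f) (N : ℕ) {t : ℝ} (ht : t ∈ Icc 0 T) :
    ∑ k ∈ bl N, he (u t) k = ∑ k ∈ bl N, he (u 0) k
      - 2 * ν * (∑ k ∈ bl N, ∫ s in (0 : ℝ)..t, nsq k * he (u s) k)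
      + 2 * (∫ s in (0 : ℝ)..t, hf (u s) N)
      + 2 * ∑ k ∈ bl N, ∫ s in (0 : ℝ)..t, hw (f s) (u s) k := by
  have i1 : ∀ k, IntervalIntegrable (fun s => nsq k * he (u s) k) volume 0 t := fun k =>
    sub0r (((he_cont h k).intervalIntegrable_of_Icc hT).const_mul _) ht
  have i2 : ∀ k, IntervalIntegrable (fun s => (tn (u s) k).im) volume 0 t := fun k =>
    sub0r (tn_ii hT h k) ht
  have i3 : ∀ k, IntervalIntegrable (fun s => hw (f s) (u s) k) volume 0 t := fun k =>
    sub0r (hw_ii hT h k) ht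
  have h1 : ∀ k, he (u t) k = he (u 0) k - 2 * ν * (∫ s in (0 : ℝ)..t, nsq k * he (u s) k)
      + 2 * (∫ s in (0 : ℝ)..t, (tn (u s) k).im) + 2 * ∫ s in (0 : ℝ)..t, hw (f s) (u s) k := by
    intro k
    have e1 := intervalIntegral.integral_const_mul (μ := volume) (a := 0) (b := t) (-2 * ν)
      (fun s => nsq k * he (u s) k)
    have e2 := intervalIntegral.integral_const_mul (μ := volume) (a := 0) (b := t) 2
      (fun s => (tn (u s) k).im)
    have e3 := intervalIntegral.integral_const_mul (μ := volume) (a := 0) (b := t) 2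
      (fun s => hw (f s) (u s) k)
    rw [he_bal hT h k ht, intervalIntegral.integral_add (((i1 k).const_mul _).add
      ((i2 k).const_mul _)) ((i3 k).const_mul _), intervalIntegral.integral_add
      ((i1 k).const_mul _) ((i2 k).const_mul _), e1, e2, e3]
    ring
  have h2 : ∫ s in (0 : ℝ)..t, hf (u s) N = ∑ k ∈ bl N, ∫ s in (0 : ℝ)..t, (tn (u s) k).im := by
    rw [← intervalIntegral.integral_finsetSum fun k _ => i2 k]
    refine intervalIntegral.integral_congr fun s _ => ?_
    show hf (u s) N = _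
    unfold hf
    rw [Complex.im_sum]
  rw [h2, Finset.sum_congr rfl fun k _ => h1 k, Finset.sum_add_distrib, Finset.sum_add_distrib,
    Finset.sum_sub_distrib, Finset.mul_sum, Finset.mul_sum, Finset.mul_sum]

theorem hf_ii (hT : 0 ≤ T) (h : IsWeakSolution ν T u f) (N : ℕ) :
    IntervalIntegrable (fun s => hf (u s) N) volume 0 T := by
  have e : (fun s => hf (u s) N) = fun s => ∑ k ∈ bl N, (tn (u s) k).im := by
    funext s
    unfold hf
    rw [Complex.im_sum]
  rw [e]
  exact Pool.Agent.N983.WK.bal_sumr _ (fun k s => (tn (u s) k).im) 0 T fun k _ => tn_ii hT h k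

end Pool.Agent.Helper30.HL
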