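import Mathlib
import Pool.Agent.Helper30.HL.HBal

set_option autoImplicit false

/-!
The helicity balance of a strong solution.
-/

namespace Pool.Agent.Helper30.HL

open MeasureTheory Set Filter Topology Pool.Agent.Helper30.TB
open scoped ENNReal

variable {ν T : ℝ} {u f : ℝ → Fld}

/-- `u` is in `L^∞(0,T;H¹)` and in `L²(0,T;H²)` -/
def IsStrongOn (T : ℝ) (u : ℝ → Fld) : Prop :=
  ∃ C : ℝ, ∀ S : Finset Wv, (∀ t ∈ Icc 0 T, ∑ k ∈ S, nsq k * msq (u t) k ≤ C) ∧
    ∫ t in (0 : ℝ)..T, ∑ k ∈ S, nsq k ^ 2 * msq (u t) k ≤ C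

theorem pal_ii (hT : 0 ≤ T) (h : IsWeakSolution ν T u f) (k : Wv) :
    IntervalIntegrable (fun τ => nsq k ^ 2 * msq (u τ) k) volume 0 T :=
  (msq_ii hT h k).const_mul _

theorem sum_pal (hT : 0 ≤ T) (h : IsWeakSolution ν T u f) (hs : IsStrongOn T u) :
    Summable fun k => ∫ τ in (0 : ℝ)..T, |nsq k ^ 2 * msq (u τ) k| := by
  obtain ⟨C, hC⟩ := hs
  exact summable_of_bdd hT (pal_ii hT h)
    (fun k τ => mul_nonneg (sq_nonneg _) (msq_nonneg _ _)) fun S => (hC S).2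

theorem summable_ens (hs : IsStrongOn T u) {t : ℝ} (ht : t ∈ Icc 0 T) :
    Summable fun k => nsq k * msq (u t) k := by
  obtain ⟨C, hC⟩ := hs
  exact summable_of_sum_le (fun k => mul_nonneg (nsq_nonneg k) (msq_nonneg _ _))
    fun S => (hC S).1 t ht

theorem sqrt_nsq_le (k : Wv) : √(nsq k) ≤ nsq k := by
  by_cases hk : k = 0
  · subst hk
    have : nsq (0 : Wv) = 0 := by simp [nsq]
    rw [this, Real.sqrt_zero]
  · have h1 := nsq_ge_one hk
    rw [Real.sqrt_le_left (by linarith)]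
    nlinarith

theorem abs_he_le2 {v : Fld} (hv : Adm v) (k : Wv) : |he v k| ≤ nsq k * msq v k :=
  (abs_he_le hv k).trans (mul_le_mul_of_nonneg_right (sqrt_nsq_le k) (msq_nonneg v k))

theorem summable_he (h : IsWeakSolution ν T u f) (hs : IsStrongOn T u) {t : ℝ}
    (ht : t ∈ Icc 0 T) : Summable (he (u t)) :=
  Summable.of_norm_bounded (summable_ens hs ht) fun k => abs_he_le2 (h.adm t ht) k

theorem she_ii (hT : 0 ≤ T) (h : IsWeakSolution ν T u f) (k : Wv) :
    IntervalIntegrable (fun s => nsq k * he (u s) k) volume 0 T :=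
  ((he_cont h k).intervalIntegrable_of_Icc hT).const_mul _

theorem sum_she (hT : 0 ≤ T) (h : IsWeakSolution ν T u f) (hs : IsStrongOn T u) :
    Summable fun k => ∫ τ in (0 : ℝ)..T, |nsq k * he (u τ) k| := by
  refine Summable.of_nonneg_of_le (fun k => intervalIntegral.integral_nonneg hT fun τ _ =>
    abs_nonneg _) (fun k => ?_) (sum_pal hT h hs)
  refine intervalIntegral.integral_mono_on hT (she_ii hT h k).abs (pal_ii hT h k).abs
    fun τ hτ => ?_
  rw [abs_mul, abs_of_nonneg (nsq_nonneg k),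
    abs_of_nonneg (mul_nonneg (sq_nonneg (nsq k)) (msq_nonneg _ _))]
  have h1 := abs_he_le2 (h.adm τ hτ) k
  calc nsq k * |he (u τ) k| ≤ nsq k * (nsq k * msq (u τ) k) :=
        mul_le_mul_of_nonneg_left h1 (nsq_nonneg k)
    _ = _ := by ring

theorem abs_hw_le {v g : Fld} (hv : Adm v) (k : Wv) :
    |hw g v k| ≤ nsq k * msq v k + msq g k := by
  unfold hw
  have h1 := norm_inner_le (vort v k) (g k)
  have h2 : √(∑ j, ‖vort v k j‖ ^ 2) = wa v k := am_vort hv k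
  have h3 : √(∑ j, ‖g k j‖ ^ 2) = am g k := rfl
  rw [h2, h3] at h1
  refine (Complex.abs_re_le_norm _).trans (h1.trans ?_)
  rw [← wa_sq, ← am_sq]
  nlinarith [sq_nonneg (wa v k - am g k), sq_nonneg (wa v k), sq_nonneg (am g k)]

theorem sum_hw (hT : 0 ≤ T) (h : IsWeakSolution ν T u f) :
    Summable fun k => ∫ τ in (0 : ℝ)..T, |hw (f τ) (u τ) k| := by
  refine Summable.of_nonneg_of_le (fun k => intervalIntegral.integral_nonneg hT fun τ _ =>
    abs_nonneg _) (fun k => ?_) ((sum_ens hT h).add (sum_msqf hT h))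
  rw [← intervalIntegral.integral_add (ens_ii hT h k).abs (msqf_ii h k).abs]
  refine intervalIntegral.integral_mono_on hT (hw_ii hT h k).abs
    ((ens_ii hT h k).abs.add (msqf_ii h k).abs) fun τ hτ => ?_
  rw [abs_of_nonneg (mul_nonneg (nsq_nonneg k) (msq_nonneg (u τ) k)),
    abs_of_nonneg (msq_nonneg (f τ) k)]
  exact abs_hw_le (h.adm τ hτ) k

/-- the total flux tends to zero -/
theorem flux_lim (hT : 0 ≤ T) (h : IsWeakSolution ν T u f) (hs : IsStrongOn T u) {t : ℝ}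
    (ht : t ∈ Icc 0 T) :
    Tendsto (fun N => ∫ s in (0 : ℝ)..t, hf (u s) N) atTop (𝓝 0) := by
  obtain ⟨C, hC⟩ := hs
  have hs : IsStrongOn T u := ⟨C, hC⟩
  have hens : ∀ s ∈ Icc 0 T, ens (u s) ≤ C := fun s hs' =>
    (summable_ens hs hs').tsum_le_of_sum_le fun S => (hC S).1 s hs'
  have hp := series_int hT (pal_ii hT h) (sum_pal hT h hs)
  have hG : IntervalIntegrable (fun s => (zc / 2 + 2 * pal (u s)) * C) volume 0 t := by
    refine sub0r (T := T) ?_ ht
    exact (intervalIntegrable_const.add (hp.const_mul 2)).mul_const C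
  have hae := ae_summable hT (pal_ii hT h) (sum_pal hT h hs)
  rw [ae_restrict_iff' measurableSet_Ioc] at hae
  have key := intervalIntegral.tendsto_integral_filter_of_dominated_convergence
    (μ := volume) (a := 0) (b := t) (l := atTop) (F := fun N s => hf (u s) N)
    (f := fun _ => (0 : ℝ)) (fun s => (zc / 2 + 2 * pal (u s)) * C) ?_ ?_ hG ?_
  · rw [intervalIntegral.integral_zero] at key
    exact key
  · refine Eventually.of_forall fun N => ?_
    have := sub0r (hf_ii hT h N) ht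
    rw [uIoc_of_le ht.1]
    exact ((intervalIntegrable_iff_integrableOn_Ioc_of_le ht.1).mp this).aestronglyMeasurable
  · refine Eventually.of_forall fun N => ?_
    filter_upwards [hae] with s h1 h2
    rw [uIoc_of_le ht.1] at h2
    have h3 : s ∈ Ioc 0 T := ⟨h2.1, h2.2.trans ht.2⟩
    have h4 : s ∈ Icc 0 T := ⟨h3.1.le, h3.2⟩
    have h5 := hf_bound (h.adm s h4) (h1 h3) N
    refine h5.trans ?_
    refine mul_le_mul_of_nonneg_left (hens s h4) ?_
    have h6 := zc_nonneg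
    have h7 : 0 ≤ pal (u s) := tsum_nonneg fun k => mul_nonneg (sq_nonneg _) (msq_nonneg _ _)
    positivity
  · filter_upwards [hae] with s h1 h2
    rw [uIoc_of_le ht.1] at h2
    have h3 : s ∈ Ioc 0 T := ⟨h2.1, h2.2.trans ht.2⟩
    exact hf_lim (h.adm s ⟨h3.1.le, h3.2⟩) (h1 h3)

/-- **The helicity balance.** -/
theorem he_total (hT : 0 ≤ T) (h : IsWeakSolution ν T u f) (hs : IsStrongOn T u) {t : ℝ}
    (ht : t ∈ Icc 0 T) :
    ∑' k, he (u t) k = ∑' k, he (u 0) k - 2 * ν * (∫ s in (0 : ℝ)..t, ∑' k, nsq k * he (u s) k)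
      + 2 * ∫ s in (0 : ℝ)..t, ∑' k, hw (f s) (u s) k := by
  have h0 : (0 : ℝ) ∈ Icc 0 T := ⟨le_rfl, hT⟩
  have a1 := (summable_he h hs h0).hasSum.comp tendsto_bl
  have a2 := (summable_he h hs ht).hasSum.comp tendsto_bl
  have a3 := (series hT (she_ii hT h) (sum_she hT h hs) le_rfl ht.1 ht.2).comp tendsto_bl
  have a4 := (series hT (hw_ii hT h) (sum_hw hT h) le_rfl ht.1 ht.2).comp tendsto_bl
  have a5 := flux_lim hT h hs ht
  have a6 := ((a1.sub (a3.const_mul (2 * ν))).add (a5.const_mul 2)).add (a4.const_mul 2)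
  have a7 := tendsto_nhds_unique a2 (a6.congr fun N => (he_balN hT h N ht).symm)
  rw [a7]
  ring

/-- the terms of the norms of the helical components -/
noncomputable def g1 (σ : ℝ) (v : Fld) (k : Wv) : ℝ := (√(nsq k) * msq v k + σ * he v k) / 2

theorem sob_half {v : Fld} (hv : Adm v) {σ : ℝ} (hσ : σ ^ 2 = 1) (k : Wv) :
    nsq k ^ (1 / 2 : ℝ) * msq (hel σ v) k = g1 σ v k := by
  rw [← Real.sqrt_eq_rpow, msq_hel hv hσ]
  unfold g1
  by_cases hk : k = 0
  · subst hk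
    have : nsq (0 : Wv) = 0 := by simp [nsq]
    rw [this, Real.sqrt_zero, he_zero hv]
    ring
  · have : √(nsq k) ≠ 0 := (Real.sqrt_pos.mpr (nsq_pos hk)).ne'
    field_simp

theorem sob_three {v : Fld} (hv : Adm v) {σ : ℝ} (hσ : σ ^ 2 = 1) (k : Wv) :
    nsq k ^ (3 / 2 : ℝ) * msq (hel σ v) k = nsq k * g1 σ v k := by
  rw [← sob_half hv hσ]
  by_cases hk : k = 0
  · subst hk
    have : nsq (0 : Wv) = 0 := by simp [nsq]
    rw [this, Real.zero_rpow (by norm_num), zero_mul, zero_mul]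
  · rw [← mul_assoc]
    congr 1
    conv_rhs => rw [← Real.rpow_one (nsq k)]
    rw [← Real.rpow_mul (nsq_nonneg k), ← Real.rpow_add (nsq_pos hk)]
    norm_num

theorem g1_nonneg {v : Fld} (hv : Adm v) {σ : ℝ} (hσ : σ ^ 2 = 1) (k : Wv) : 0 ≤ g1 σ v k := by
  rw [← sob_half hv hσ]
  exact mul_nonneg (Real.rpow_nonneg (nsq_nonneg k) _) (msq_nonneg _ _)

theorem g1_le {v : Fld} (hv : Adm v) {σ : ℝ} (hσ : σ ^ 2 = 1) (k : Wv) :
    g1 σ v k ≤ nsq k * msq v k := by
  have h1 := abs_he_le2 hv k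
  have h2 : |σ| = 1 := by
    rw [← sq_eq_sq₀ (abs_nonneg σ) zero_le_one, sq_abs, hσ, one_pow]
  have h3 : σ * he v k ≤ nsq k * msq v k := by
    calc σ * he v k ≤ |σ * he v k| := le_abs_self _
      _ = |he v k| := by rw [abs_mul, h2, one_mul]
      _ ≤ _ := h1
  have h4 := mul_le_mul_of_nonneg_right (sqrt_nsq_le k) (msq_nonneg v k)
  unfold g1
  linarith

theorem summable_g1 (h : IsWeakSolution ν T u f) (hs : IsStrongOn T u) {σ : ℝ}
    (hσ : σ ^ 2 = 1) {t : ℝ} (ht : t ∈ Icc 0 T) : Summable (g1 σ (u t)) :=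
  Summable.of_nonneg_of_le (g1_nonneg (h.adm t ht) hσ) (g1_le (h.adm t ht) hσ)
    (summable_ens hs ht)

theorem sob_half_eq (h : IsWeakSolution ν T u f) {σ : ℝ} (hσ : σ ^ 2 = 1) {t : ℝ}
    (ht : t ∈ Icc 0 T) : sob (1 / 2) (hel σ (u t)) = ∑' k, g1 σ (u t) k :=
  tsum_congr fun k => sob_half (h.adm t ht) hσ k

theorem g1_cont (h : IsWeakSolution ν T u f) (σ : ℝ) (k : Wv) :
    ContinuousOn (fun t => g1 σ (u t) k) (Icc 0 T) := by
  unfold g1
  exact ((continuousOn_const.mul (msq_cont h k)).add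
    (continuousOn_const.mul (he_cont h k))).div_const _

theorem g3_ii (hT : 0 ≤ T) (h : IsWeakSolution ν T u f) (σ : ℝ) (k : Wv) :
    IntervalIntegrable (fun s => nsq k * g1 σ (u s) k) volume 0 T :=
  ((g1_cont h σ k).intervalIntegrable_of_Icc hT).const_mul _

theorem sum_g3 (hT : 0 ≤ T) (h : IsWeakSolution ν T u f) (hs : IsStrongOn T u) {σ : ℝ}
    (hσ : σ ^ 2 = 1) : Summable fun k => ∫ τ in (0 : ℝ)..T, |nsq k * g1 σ (u τ) k| := by
  refine Summable.of_nonneg_of_le (fun k => intervalIntegral.integral_nonneg hT fun τ _ =>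
    abs_nonneg _) (fun k => ?_) (sum_pal hT h hs)
  refine intervalIntegral.integral_mono_on hT (g3_ii hT h σ k).abs (pal_ii hT h k).abs
    fun τ hτ => ?_
  rw [abs_of_nonneg (mul_nonneg (nsq_nonneg k) (g1_nonneg (h.adm τ hτ) hσ k)),
    abs_of_nonneg (mul_nonneg (sq_nonneg (nsq k)) (msq_nonneg _ _))]
  calc nsq k * g1 σ (u τ) k ≤ nsq k * (nsq k * msq (u τ) k) :=
        mul_le_mul_of_nonneg_left (g1_le (h.adm τ hτ) hσ k) (nsq_nonneg k)
    _ = _ := by ring

/-- the norm of the helical component in `L^∞(0,t;H^{1/2})` and `L²(0,t;H^{3/2})` -/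
noncomputable def XX (ν : ℝ) (u : ℝ → Fld) (σ t : ℝ) : ℝ :=
  sob (1 / 2) (hel σ (u t)) + 2 * ν * ∫ s in (0 : ℝ)..t, sob (3 / 2) (hel σ (u s))

theorem XX_eq (h : IsWeakSolution ν T u f) {σ : ℝ} (hσ : σ ^ 2 = 1)
    {t : ℝ} (ht : t ∈ Icc 0 T) :
    XX ν u σ t = ∑' k, g1 σ (u t) k + 2 * ν * ∫ s in (0 : ℝ)..t, ∑' k, nsq k * g1 σ (u s) k := by
  unfold XX
  rw [sob_half_eq h hσ ht]
  congr 2
  refine intervalIntegral.integral_congr fun s hs => ?_
  rw [uIcc_of_le ht.1] at hs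
  exact tsum_congr fun k => sob_three (h.adm s ⟨hs.1, hs.2.trans ht.2⟩) hσ k

theorem one_sq' : (1 : ℝ) ^ 2 = 1 := by norm_num

theorem neg_one_sq' : (-1 : ℝ) ^ 2 = 1 := by norm_num

/-- the difference of the two norms is controlled by the helicity balance -/
theorem XX_diff (hT : 0 ≤ T) (h : IsWeakSolution ν T u f) (hs : IsStrongOn T u) {t : ℝ}
    (ht : t ∈ Icc 0 T) :
    XX ν u 1 t - XX ν u (-1) t
      = ∑' k, he (u 0) k + 2 * ∫ s in (0 : ℝ)..t, ∑' k, hw (f s) (u s) k := by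
  have e1 := he_total hT h hs ht
  have s1 := summable_g1 h hs one_sq' ht
  have s2 := summable_g1 h hs neg_one_sq' ht
  have e2 : ∑' k, g1 1 (u t) k - ∑' k, g1 (-1) (u t) k = ∑' k, he (u t) k := by
    rw [← s1.tsum_sub s2]
    refine tsum_congr fun k => ?_
    unfold g1
    ring
  have a1 := series hT (g3_ii hT h 1) (sum_g3 hT h hs one_sq') le_rfl ht.1 ht.2
  have a2 := series hT (g3_ii hT h (-1)) (sum_g3 hT h hs neg_one_sq') le_rfl ht.1 ht.2
  have a3 := series hT (she_ii hT h) (sum_she hT h hs) le_rfl ht.1 ht.2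
  have e3 : (∫ s in (0 : ℝ)..t, ∑' k, nsq k * g1 1 (u s) k)
      - (∫ s in (0 : ℝ)..t, ∑' k, nsq k * g1 (-1) (u s) k)
      = ∫ s in (0 : ℝ)..t, ∑' k, nsq k * he (u s) k := by
    rw [← a1.tsum_eq, ← a2.tsum_eq, ← a3.tsum_eq, ← a1.summable.tsum_sub a2.summable]
    refine tsum_congr fun k => ?_
    rw [← intervalIntegral.integral_sub (sub0r (g3_ii hT h 1 k) ht)
      (sub0r (g3_ii hT h (-1) k) ht)]
    refine intervalIntegral.integral_congr fun s _ => ?_
    show nsq k * g1 1 (u s) k - nsq k * g1 (-1) (u s) k = nsq k * he (u s) k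
    unfold g1
    ring
  rw [XX_eq h one_sq' ht, XX_eq h neg_one_sq' ht]
  linear_combination e2 + 2 * ν * e3 + e1

/-- the sum of the two norms -/
theorem XX_sum (hν : 0 ≤ ν) (hT : 0 ≤ T) (h : IsWeakSolution ν T u f) (hs : IsStrongOn T u)
    {t : ℝ} (ht : t ∈ Icc 0 T) :
    ∑' k, √(nsq k) * msq (u t) k ≤ XX ν u 1 t + XX ν u (-1) t := by
  have s1 := summable_g1 h hs one_sq' ht
  have s2 := summable_g1 h hs neg_one_sq' ht
  have e2 : ∑' k, g1 1 (u t) k + ∑' k, g1 (-1) (u t) k = ∑' k, √(nsq k) * msq (u t) k := by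
    rw [← s1.tsum_add s2]
    refine tsum_congr fun k => ?_
    unfold g1
    ring
  have hp : ∀ σ : ℝ, σ ^ 2 = 1 → 0 ≤ ∫ s in (0 : ℝ)..t, ∑' k, nsq k * g1 σ (u s) k := by
    intro σ hσ
    refine intervalIntegral.integral_nonneg ht.1 fun s hs' => ?_
    exact tsum_nonneg fun k => mul_nonneg (nsq_nonneg k)
      (g1_nonneg (h.adm s ⟨hs'.1, hs'.2.trans ht.2⟩) hσ k)
  rw [XX_eq h one_sq' ht, XX_eq h neg_one_sq' ht, ← e2]
  have h1 := mul_nonneg hν (hp 1 one_sq')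
  have h2 := mul_nonneg hν (hp (-1) neg_one_sq')
  nlinarith

end Pool.Agent.Helper30.HL
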