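import Mathlib
import Pool.Agent.Helper30.HL.HLim
import Pool.Agent.Helper30.TB.Main

set_option autoImplicit false

/-!
The concentration of the energy in high frequencies before a jump of the energy.
-/

namespace Pool.Agent.Helper30.HL

open MeasureTheory Set Filter Topology Pool.Agent.Helper30.TB
open scoped ENNReal

variable {ν T : ℝ} {u f : ℝ → Fld}

theorem restrict (h : IsWeakSolution ν T u f) {T' : ℝ} (h0 : 0 ≤ T') (hT' : T' ≤ T) :
    IsWeakSolution ν T' u f where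
  adm := fun t ht => h.adm t ⟨ht.1, ht.2.trans hT'⟩
  cont := fun k j => (h.cont k j).mono (Icc_subset_Icc_right hT')
  energy := by
    obtain ⟨C, hC⟩ := h.energy
    exact ⟨C, fun t ht S => hC t ⟨ht.1, ht.2.trans hT'⟩ S⟩
  diss := by
    obtain ⟨C, hC⟩ := h.diss
    refine ⟨C, fun S => le_trans ?_ (hC S)⟩
    have hc : ContinuousOn (fun t => ∑ k ∈ S, nsq k * msq (u t) k) (Icc 0 T) :=
      continuousOn_finsetSum _ fun k _ => continuousOn_const.mul (msq_cont h k)
    refine intervalIntegral.integral_mono_interval le_rfl h0 hT' ?_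
      (hc.intervalIntegrable_of_Icc (h0.trans hT'))
    exact Eventually.of_forall fun t => Finset.sum_nonneg fun k _ =>
      mul_nonneg (nsq_nonneg _) (msq_nonneg _ _)
  fadm := fun t ht => h.fadm t ⟨ht.1, ht.2.trans hT'⟩
  fmeas := h.fmeas
  fint := fun k j => sub0r (h.fint k j) ⟨h0, hT'⟩
  fbdd := by
    obtain ⟨C, hC⟩ := h.fbdd
    refine ⟨C, fun S => le_trans ?_ (hC S)⟩
    refine intervalIntegral.integral_mono_interval le_rfl h0 hT' ?_ ?_
    · exact Eventually.of_forall fun t => Finset.sum_nonneg fun k _ => msq_nonneg _ _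
    · exact Pool.Agent.N983.WK.bal_sumr _ (fun k s => msq (f s) k) 0 T fun k _ => msqf_ii h k
  eqn := fun k hk j t ht => h.eqn k hk j t ⟨ht.1, ht.2.trans hT'⟩

theorem strongOn (hs : IsStrongBefore T u) {T' : ℝ} (h0 : 0 < T') (hT' : T' < T) :
    IsStrongOn T' u := hs T' h0 hT'

/-- strong solutions satisfy the energy equality -/
theorem band_zero (hT : 0 ≤ T) (h : IsWeakSolution ν T u f) (hs : IsStrongOn T u) :
    bandK T u = 0 := by
  have h1 := sum_pal hT h hs
  set C := ∑' k, ∫ τ in (0 : ℝ)..T, |nsq k ^ 2 * msq (u τ) k| with hC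
  have hC0 : 0 ≤ C := tsum_nonneg fun k => intervalIntegral.integral_nonneg hT fun _ _ =>
    abs_nonneg _
  have key : ∀ N : ℕ, 1 ≤ N → Lf u N T ≤ C / N := by
    intro N hN
    have hNr : (1 : ℝ) ≤ N := by exact_mod_cast hN
    have h2 := series hT (gE_ii' hT h (bandS N)) (sum_gE hT h (bandS N)) le_rfl hT le_rfl
    have h3 : (N : ℝ) ^ 4 * ∫ τ in (0 : ℝ)..T, gE (bandS N) (u τ) ≤ C := by
      show (N : ℝ) ^ 4 * ∫ τ in (0 : ℝ)..T, ∑' k, (bandS N).indicator (msq (u τ)) k ≤ C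
      rw [← h2.tsum_eq, ← tsum_mul_left]
      refine (h2.summable.mul_left _).tsum_le_tsum (fun k => ?_) h1
      rw [← intervalIntegral.integral_const_mul]
      refine intervalIntegral.integral_mono_on hT ((gE_ii' hT h _ k).const_mul _)
        (pal_ii hT h k).abs fun τ _ => ?_
      by_cases hk : k ∈ bandS N
      · rw [indicator_of_mem hk, abs_of_nonneg (mul_nonneg (sq_nonneg _) (msq_nonneg _ _))]
        have h4 : (N : ℝ) ^ 2 < nsq k := hk.1
        have h5 : (N : ℝ) ^ 4 ≤ nsq k ^ 2 := by nlinarith [sq_nonneg (N : ℝ)]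
        exact mul_le_mul_of_nonneg_right h5 (msq_nonneg _ _)
      · rw [indicator_of_notMem hk, mul_zero]
        exact abs_nonneg _
    have h4 : (N : ℝ) ^ (5 / 2 : ℝ) ≤ (N : ℝ) ^ 3 := by
      rw [← Real.rpow_natCast (N : ℝ) 3]
      exact Real.rpow_le_rpow_of_exponent_le hNr (by norm_num)
    have h5 : 0 ≤ ∫ τ in (0 : ℝ)..T, gE (bandS N) (u τ) :=
      intervalIntegral.integral_nonneg hT fun τ _ => gE_nonneg _ _
    unfold Lf
    rw [le_div_iff₀ (by linarith)]
    calc (N : ℝ) ^ (5 / 2 : ℝ) * (∫ τ in (0 : ℝ)..T, gE (bandS N) (u τ)) * N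
        ≤ (N : ℝ) ^ 3 * (∫ τ in (0 : ℝ)..T, gE (bandS N) (u τ)) * N := by gcongr
      _ = (N : ℝ) ^ 4 * ∫ τ in (0 : ℝ)..T, gE (bandS N) (u τ) := by ring
      _ ≤ C := h3
  rw [bandK_eq]
  have h2 : Tendsto (fun N : ℕ => ENNReal.ofReal (C / N)) atTop (𝓝 0) := by
    rw [← ENNReal.ofReal_zero]
    exact (ENNReal.continuous_ofReal.tendsto 0).comp
      (tendsto_const_nhds.div_atTop tendsto_natCast_atTop_atTop)
  refine le_antisymm ?_ bot_le
  calc liminf (fun N : ℕ => ENNReal.ofReal (Lf u N T)) atTop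
      ≤ liminf (fun N : ℕ => ENNReal.ofReal (C / N)) atTop := by
        refine liminf_le_liminf ?_
        filter_upwards [eventually_ge_atTop 1] with N hN
        exact ENNReal.ofReal_le_ofReal (key N hN)
    _ = 0 := h2.liminf_eq

theorem defect_before (h : IsWeakSolution ν T u f) (hs : IsStrongBefore T u)
    {t : ℝ} (ht : t ∈ Ico 0 T) : energyDefect ν u f t = 0 := by
  rcases ht.1.eq_or_lt with h0 | h0
  · rw [← h0]
    exact defect_zero
  · have h1 := restrict h h0.le ht.2.le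
    exact eq_of_zero h0 h1 (band_zero h0.le h1 (strongOn hs h0 ht.2)) t ⟨h0.le, le_rfl⟩

theorem split {v : Fld} (hv : Summable (msq v)) (N : ℕ) :
    nrm2 v = ∑ k ∈ bl N, msq v k + tailE v N := by
  have h1 : ∑ k ∈ bl N, msq v k = ∑' k, ((bl N : Finset Wv) : Set Wv).indicator (msq v) k :=
    sum_eq_tsum_indicator _ _
  rw [h1]
  unfold tailE nrm2
  rw [← (hv.indicator _).tsum_add (hv.indicator _)]
  refine tsum_congr fun k => ?_
  by_cases hk : nsq k ≤ (N : ℝ) ^ 2
  · rw [indicator_of_mem (show k ∈ ((bl N : Finset Wv) : Set Wv) from mem_bl.mpr hk),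
      indicator_of_notMem (show k ∉ {k : Wv | (N : ℝ) ^ 2 < nsq k} from not_lt.mpr hk), add_zero]
  · rw [indicator_of_notMem (show k ∉ ((bl N : Finset Wv) : Set Wv) from
      fun hc => hk (mem_bl.mp hc)),
      indicator_of_mem (show k ∈ {k : Wv | (N : ℝ) ^ 2 < nsq k} from not_le.mp hk), zero_add]

theorem tailE_nonneg (v : Fld) (N : ℕ) : 0 ≤ tailE v N := gE_nonneg _ _

theorem tailE_le {v : Fld} (hv : Summable (msq v)) (N : ℕ) : tailE v N ≤ nrm2 v := by
  rw [split hv N]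
  have : 0 ≤ ∑ k ∈ bl N, msq v k := Finset.sum_nonneg fun k _ => msq_nonneg v k
  linarith

theorem tailE_anti {v : Fld} (hv : Summable (msq v)) {N N' : ℕ} (hN : N ≤ N') :
    tailE v N' ≤ tailE v N := by
  have h1 := split hv N
  have h2 := split hv N'
  have h3 : ∑ k ∈ bl N, msq v k ≤ ∑ k ∈ bl N', msq v k :=
    Finset.sum_le_sum_of_subset_of_nonneg (bl_mono hN) fun k _ _ => msq_nonneg v k
  linarith

theorem tailE_lim {v : Fld} (hv : Summable (msq v)) :
    Tendsto (fun N : ℕ => tailE v N) atTop (𝓝 0) := by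
  have h1 : Tendsto (fun N => ∑ k ∈ bl N, msq v k) atTop (𝓝 (nrm2 v)) :=
    hv.hasSum.comp tendsto_bl
  have h2 := (tendsto_const_nhds (x := nrm2 v)).sub h1
  rw [sub_self] at h2
  refine h2.congr fun N => ?_
  rw [split hv N]
  ring

/-- a constant of the embedding of the band energies -/
noncomputable def k5 : ℝ := 4 * √125

theorem k5_pos : 0 < k5 := by unfold k5; positivity

/-- the bound of the flux by the energy -/
theorem flux_le {v : Fld} (hv : Adm v) (hs : Summable (msq v)) {M : ℝ} (hM : 0 ≤ M)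
    (hb : nrm2 v ≤ M ^ 2) (N : ℕ) :
    |flux v (2 * N)| ≤ k5 * (N : ℝ) ^ (5 / 2 : ℝ) * M ^ 3 := by
  have h1 := flux_bound hv hs N
  rcases Nat.eq_zero_or_pos N with h0 | h0
  · subst h0
    simp only [Nat.cast_zero, mul_zero, zero_mul] at h1 ⊢
    rw [Real.zero_rpow (by norm_num), mul_zero, zero_mul]
    exact h1
  have hN : 1 ≤ N := h0
  have h2 : ∑ k ∈ bl (2 * N), am v k ≤ √125 * √((N : ℝ) ^ 3) * M := by
    have h3 := SA1_le hs (2 * N)
    have h4 := sqrt_card_le hN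
    have h5 : √(nrm2 v) ≤ M := by
      rw [Real.sqrt_le_left hM]
      exact hb
    calc ∑ k ∈ bl (2 * N), am v k = SA1 (2 * N) v := rfl
      _ ≤ √((2 * ((2 * N : ℕ) : ℝ) + 1) ^ 3) * √(nrm2 v) := h3
      _ ≤ _ := mul_le_mul h4 h5 (Real.sqrt_nonneg _) (by positivity)
  have h3 : tailE v N ≤ M ^ 2 := (tailE_le hs N).trans hb
  have h4 : 0 ≤ ∑ k ∈ bl (2 * N), am v k := SA1_nonneg _ _
  calc |flux v (2 * N)| ≤ 4 * N * (∑ k ∈ bl (2 * N), am v k) * tailE v N := h1
    _ ≤ 4 * N * (√125 * √((N : ℝ) ^ 3) * M) * M ^ 2 :=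
        mul_le_mul (mul_le_mul_of_nonneg_left h2 (by positivity)) h3 (tailE_nonneg _ _)
          (by positivity)
    _ = _ := by
        rw [pow52]
        unfold k5
        ring

/-- the work of the force in absolute value after the time `t` -/
noncomputable def WW (T : ℝ) (u f : ℝ → Fld) (t : ℝ) : ℝ :=
  ∫ s in t..T, ∑' k, |pw (f s) (u s) k|

/-- the dissipation after the time `t` -/
noncomputable def EE (T : ℝ) (u : ℝ → Fld) (t : ℝ) : ℝ := ∫ s in t..T, ens (u s)

theorem prim_lim (hT : 0 < T) {g : ℝ → ℝ} (hg : IntervalIntegrable g volume 0 T) :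
    Tendsto (fun t => ∫ s in t..T, g s) (𝓝[<] T) (𝓝 0) := by
  have h1 : ContinuousOn (fun t => ∫ s in (0 : ℝ)..t, g s) (uIcc 0 T) :=
    intervalIntegral.continuousOn_primitive_interval (by rw [← intervalIntegrable_iff']; exact hg)
  rw [uIcc_of_le hT.le] at h1
  have h2 : Tendsto (fun t => ∫ s in (0 : ℝ)..t, g s) (𝓝[<] T)
      (𝓝 (∫ s in (0 : ℝ)..T, g s)) := by
    refine (h1 T ⟨hT.le, le_rfl⟩).mono_left ?_
    rw [← nhdsWithin_Ioo_eq_nhdsLT hT]
    exact nhdsWithin_mono _ Ioo_subset_Icc_self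
  have h3 := (tendsto_const_nhds (x := ∫ s in (0 : ℝ)..T, g s)).sub h2
  rw [sub_self] at h3
  refine h3.congr' ?_
  filter_upwards [Ioo_mem_nhdsLT hT] with t ht
  rw [intervalIntegral.integral_interval_sub_left hg (sub0r hg ⟨ht.1.le, ht.2.le⟩)]

theorem abspw_ii (hT : 0 ≤ T) (h : IsWeakSolution ν T u f) (k : Wv) :
    IntervalIntegrable (fun s => |pw (f s) (u s) k|) volume 0 T := (pw_ii hT h k).abs

theorem sum_abspw (hT : 0 ≤ T) (h : IsWeakSolution ν T u f) :
    Summable fun k => ∫ τ in (0 : ℝ)..T, |(|pw (f τ) (u τ) k|)| := by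
  simp_rw [abs_abs]
  exact sum_pw hT h

theorem WW_lim (hT : 0 < T) (h : IsWeakSolution ν T u f) :
    Tendsto (WW T u f) (𝓝[<] T) (𝓝 0) :=
  prim_lim hT (series_int hT.le (abspw_ii hT.le h) (sum_abspw hT.le h))

theorem EE_lim (hT : 0 < T) (h : IsWeakSolution ν T u f) :
    Tendsto (EE T u) (𝓝[<] T) (𝓝 0) :=
  prim_lim hT (series_int hT.le (ens_ii hT.le h) (sum_ens hT.le h))

theorem tsum_sub_sum_le {a b : Wv → ℝ} (ha : Summable a) (hb : Summable b)
    (hab : ∀ k, |a k| ≤ b k) (S : Finset Wv) : |∑' k, a k - ∑ k ∈ S, a k| ≤ ∑' k, b k := by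
  have h1 : ∑' k, a k - ∑ k ∈ S, a k = ∑' k, ((S : Set Wv)ᶜ).indicator a k := by
    rw [← ha.sum_add_tsum_compl (s := S), add_sub_cancel_left, tsum_subtype]
  rw [h1]
  have h2 : ∀ k, ‖((S : Set Wv)ᶜ).indicator a k‖ ≤ b k := by
    intro k
    refine (norm_indicator_le_norm_self _ _).trans ?_
    exact hab k
  exact tsum_of_norm_bounded hb.hasSum h2

/-- **The energy balance of the high frequencies between `t` and `T`.** -/
theorem key_bal (hν : 0 ≤ ν) (hT : 0 < T) (h : IsWeakSolution ν T u f) {M : ℝ} (hM : 0 ≤ M)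
    (hb : ∀ t ∈ Icc 0 T, nrm2 (u t) ≤ M ^ 2) {t : ℝ} (ht : t ∈ Ico 0 T) (N : ℕ) :
    |2 * (energyDefect ν u f T - energyDefect ν u f t) - tailE (u t) (2 * N)
        + tailE (u T) (2 * N)
        + 2 * ν * ((∫ s in t..T, ens (u s))
          - ∑ k ∈ bl (2 * N), ∫ s in t..T, nsq k * msq (u s) k)|
      ≤ 2 * WW T u f t + 2 * (k5 * (N : ℝ) ^ (5 / 2 : ℝ) * M ^ 3) * (T - t) := by
  have hT0 := hT.le
  have hTT : T ∈ Icc 0 T := ⟨hT0, le_rfl⟩
  have ht' : t ∈ Icc 0 T := ⟨ht.1, ht.2.le⟩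
  have h00 : (0 : ℝ) ∈ Icc 0 T := ⟨le_rfl, hT0⟩
  obtain ⟨b1, b2⟩ := bal hT0 h (2 * N)
  -- the balance in the ball at a time
  have hbal : ∀ x ∈ Icc 0 T, ∑ k ∈ bl (2 * N), msq (u x) k = ∑ k ∈ bl (2 * N), msq (u 0) k
      - 2 * ν * (∑ k ∈ bl (2 * N), ∫ s in (0 : ℝ)..x, nsq k * msq (u s) k)
      + 2 * (∫ s in (0 : ℝ)..x, flux (u s) (2 * N))
      + 2 * ∑ k ∈ bl (2 * N), ∫ s in (0 : ℝ)..x, pw (f s) (u s) k := by
    intro x hx
    have i1 : IntervalIntegrable (fun s => ∑ k ∈ bl (2 * N), nsq k * msq (u s) k) volume 0 x :=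
      Pool.Agent.N983.WK.bal_sumr _ (fun k s => nsq k * msq (u s) k) 0 x fun k _ =>
        sub0r (ens_ii hT0 h k) hx
    have i2 : IntervalIntegrable (fun s => ∑ k ∈ bl (2 * N), pw (f s) (u s) k) volume 0 x :=
      Pool.Agent.N983.WK.bal_sumr _ (fun k s => pw (f s) (u s) k) 0 x fun k _ =>
        sub0r (pw_ii hT0 h k) hx
    have i3 : IntervalIntegrable (fun s => flux (u s) (2 * N)) volume 0 x := sub0r b1 hx
    rw [b2 x hx, intervalIntegral.integral_add ((i1.const_mul _).add (i3.const_mul _))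
      (i2.const_mul _), intervalIntegral.integral_add (i1.const_mul _) (i3.const_mul _),
      intervalIntegral.integral_const_mul, intervalIntegral.integral_const_mul,
      intervalIntegral.integral_const_mul, intervalIntegral.integral_finsetSum fun k _ =>
        sub0r (ens_ii hT0 h k) hx, intervalIntegral.integral_finsetSum fun k _ =>
        sub0r (pw_ii hT0 h k) hx]
    ring
  have c1 := hbal T hTT
  have c2 := hbal t ht'
  have d1 := split (summable_msq h hTT) (2 * N)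
  have d2 := split (summable_msq h ht') (2 * N)
  -- the differences of the integrals
  have ie := series_int hT0 (ens_ii hT0 h) (sum_ens hT0 h)
  have iw := series_int hT0 (pw_ii hT0 h) (sum_pw hT0 h)
  have e1 : (∫ s in (0 : ℝ)..T, ens (u s)) - (∫ s in (0 : ℝ)..t, ens (u s))
      = ∫ s in t..T, ens (u s) := intervalIntegral.integral_interval_sub_left ie (sub0r ie ht')
  have e2 : (∫ s in (0 : ℝ)..T, work (f s) (u s)) - (∫ s in (0 : ℝ)..t, work (f s) (u s))
      = ∫ s in t..T, work (f s) (u s) :=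
    intervalIntegral.integral_interval_sub_left iw (sub0r iw ht')
  have e3 : (∫ s in (0 : ℝ)..T, flux (u s) (2 * N)) - (∫ s in (0 : ℝ)..t, flux (u s) (2 * N))
      = ∫ s in t..T, flux (u s) (2 * N) :=
    intervalIntegral.integral_interval_sub_left b1 (sub0r b1 ht')
  have e4 : (∑ k ∈ bl (2 * N), ∫ s in (0 : ℝ)..T, nsq k * msq (u s) k)
      - (∑ k ∈ bl (2 * N), ∫ s in (0 : ℝ)..t, nsq k * msq (u s) k)
      = ∑ k ∈ bl (2 * N), ∫ s in t..T, nsq k * msq (u s) k := by
    rw [← Finset.sum_sub_distrib]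
    exact Finset.sum_congr rfl fun k _ => intervalIntegral.integral_interval_sub_left
      (ens_ii hT0 h k) (sub0r (ens_ii hT0 h k) ht')
  have e5 : (∑ k ∈ bl (2 * N), ∫ s in (0 : ℝ)..T, pw (f s) (u s) k)
      - (∑ k ∈ bl (2 * N), ∫ s in (0 : ℝ)..t, pw (f s) (u s) k)
      = ∑ k ∈ bl (2 * N), ∫ s in t..T, pw (f s) (u s) k := by
    rw [← Finset.sum_sub_distrib]
    exact Finset.sum_congr rfl fun k _ => intervalIntegral.integral_interval_sub_left
      (pw_ii hT0 h k) (sub0r (pw_ii hT0 h k) ht')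
  -- the work in the high frequencies
  have f1 : |(∫ s in t..T, work (f s) (u s)) - ∑ k ∈ bl (2 * N), ∫ s in t..T, pw (f s) (u s) k|
      ≤ WW T u f t := by
    have g1' := series hT0 (pw_ii hT0 h) (sum_pw hT0 h) ht.1 ht.2.le le_rfl
    have g2' := series hT0 (abspw_ii hT0 h) (sum_abspw hT0 h) ht.1 ht.2.le le_rfl
    have g3' : ∫ s in t..T, work (f s) (u s) = ∑' k, ∫ s in t..T, pw (f s) (u s) k :=
      g1'.tsum_eq.symm
    unfold WW
    rw [g3', ← g2'.tsum_eq]
    refine tsum_sub_sum_le g1'.summable g2'.summable (fun k => ?_) _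
    exact intervalIntegral.abs_integral_le_integral_abs ht.2.le
  -- the flux
  have f2 : |∫ s in t..T, flux (u s) (2 * N)| ≤ (k5 * (N : ℝ) ^ (5 / 2 : ℝ) * M ^ 3) * (T - t) := by
    have g1' := intervalIntegral.norm_integral_le_of_norm_le_const (a := t) (b := T)
      (f := fun s => flux (u s) (2 * N)) (C := k5 * (N : ℝ) ^ (5 / 2 : ℝ) * M ^ 3) fun x hx => by
        rw [uIoc_of_le ht.2.le] at hx
        have hx' : x ∈ Icc 0 T := ⟨ht.1.trans hx.1.le, hx.2⟩
        exact flux_le (h.adm x hx') (summable_msq h hx') hM (hb x hx') N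
    rw [abs_of_nonneg (by linarith [ht.2] : (0 : ℝ) ≤ T - t)] at g1'
    exact g1'
  have g : 2 * (energyDefect ν u f T - energyDefect ν u f t) - tailE (u t) (2 * N)
        + tailE (u T) (2 * N)
        + 2 * ν * ((∫ s in t..T, ens (u s))
          - ∑ k ∈ bl (2 * N), ∫ s in t..T, nsq k * msq (u s) k)
      = 2 * ((∫ s in t..T, work (f s) (u s)) - ∑ k ∈ bl (2 * N), ∫ s in t..T, pw (f s) (u s) k)
        - 2 * ∫ s in t..T, flux (u s) (2 * N) := by
    unfold energyDefect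
    rw [← e1, ← e2, ← e3, ← e4, ← e5, d1, d2]
    linear_combination c2 - c1
  rw [g]
  have hν' := hν
  calc |2 * ((∫ s in t..T, work (f s) (u s)) - ∑ k ∈ bl (2 * N), ∫ s in t..T, pw (f s) (u s) k)
        - 2 * ∫ s in t..T, flux (u s) (2 * N)|
      ≤ |2 * ((∫ s in t..T, work (f s) (u s)) - ∑ k ∈ bl (2 * N), ∫ s in t..T, pw (f s) (u s) k)|
        + |2 * ∫ s in t..T, flux (u s) (2 * N)| := abs_sub _ _
    _ = 2 * |(∫ s in t..T, work (f s) (u s)) - ∑ k ∈ bl (2 * N), ∫ s in t..T, pw (f s) (u s) k|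
        + 2 * |∫ s in t..T, flux (u s) (2 * N)| := by
        rw [abs_mul, abs_mul, abs_two]
    _ ≤ _ := by linarith

end Pool.Agent.Helper30.HL
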