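import Mathlib
import Pool.Agent.Helper30.HL.Conc

set_option autoImplicit false

/-!
Before a jump of the energy both helical components blow up.
-/

namespace Pool.Agent.Helper30.HL

open MeasureTheory Set Filter Topology Pool.Agent.Helper30.TB
open scoped ENNReal

variable {ν T : ℝ} {u f : ℝ → Fld}

theorem ens_rest_nonneg (hT : 0 ≤ T) (h : IsWeakSolution ν T u f) {t : ℝ} (ht : t ∈ Icc 0 T)
    (S : Finset Wv) :
    0 ≤ (∫ s in t..T, ens (u s)) - ∑ k ∈ S, ∫ s in t..T, nsq k * msq (u s) k ∧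
    (∫ s in t..T, ens (u s)) - ∑ k ∈ S, ∫ s in t..T, nsq k * msq (u s) k ≤ EE T u t := by
  have h1 := series hT (ens_ii hT h) (sum_ens hT h) ht.1 ht.2 le_rfl
  have h2 : ∀ k, 0 ≤ ∫ s in t..T, nsq k * msq (u s) k := fun k =>
    intervalIntegral.integral_nonneg ht.2 fun s _ => mul_nonneg (nsq_nonneg _) (msq_nonneg _ _)
  have h3 : ∫ s in t..T, ens (u s) = ∑' k, ∫ s in t..T, nsq k * msq (u s) k := h1.tsum_eq.symm
  constructor
  · rw [h3]
    have := h1.summable.sum_le_tsum S fun k _ => h2 k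
    linarith
  · unfold EE
    have : 0 ≤ ∑ k ∈ S, ∫ s in t..T, nsq k * msq (u s) k := Finset.sum_nonneg fun k _ => h2 k
    linarith

section main

variable {M : ℝ}

theorem sub_lim (T : ℝ) : Tendsto (fun t : ℝ => T - t) (𝓝[<] T) (𝓝[>] 0) := by
  refine tendsto_nhdsWithin_iff.mpr ⟨?_, ?_⟩
  · have h1 : Tendsto (fun t : ℝ => T - t) (𝓝 T) (𝓝 (T - T)) :=
      (continuous_const.sub continuous_id).tendsto T
    rw [sub_self] at h1
    exact h1.mono_left nhdsWithin_le_nhds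
  · filter_upwards [self_mem_nhdsWithin] with t ht
    exact sub_pos.mpr (show t < T from ht)

theorem defect_nonneg (hν : 0 < ν) (hT : 0 < T) (h : IsWeakSolution ν T u f)
    (hs : IsStrongBefore T u) (hM : 0 ≤ M) (hb : ∀ t ∈ Icc 0 T, nrm2 (u t) ≤ M ^ 2) :
    0 ≤ energyDefect ν u f T := by
  have hTT : T ∈ Icc 0 T := ⟨hT.le, le_rfl⟩
  have key : ∀ N : ℕ, -tailE (u T) (2 * N) ≤ 2 * energyDefect ν u f T := by
    intro N
    have l1 := (WW_lim hT h).const_mul 2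
    have l2 := (EE_lim hT h).const_mul (2 * ν)
    have l3 := ((sub_lim T).mono_right nhdsWithin_le_nhds).const_mul
      (2 * (k5 * (N : ℝ) ^ (5 / 2 : ℝ) * M ^ 3))
    have l4 := ((l1.add l2).add l3).const_sub (-tailE (u T) (2 * N))
    simp only [mul_zero, add_zero, sub_zero] at l4
    refine le_of_tendsto l4 ?_
    filter_upwards [Ioo_mem_nhdsLT hT] with t ht
    have ht' : t ∈ Ico 0 T := ⟨ht.1.le, ht.2⟩
    have h1 := (abs_le.mp (key_bal hν.le hT h hM hb ht' N)).1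
    rw [defect_before h hs ht'] at h1
    have h2 := tailE_nonneg (u t) (2 * N)
    have h3 := (ens_rest_nonneg hT.le h ⟨ht.1.le, ht.2.le⟩ (bl (2 * N))).2
    have h4 := mul_le_mul_of_nonneg_left h3 hν.le
    linarith
  have l5 : Tendsto (fun N : ℕ => -tailE (u T) (2 * N)) atTop (𝓝 0) := by
    have h1 := (tailE_lim (summable_msq h hTT)).neg
    rw [neg_zero] at h1
    exact h1.comp (tendsto_id.const_mul_atTop' (by norm_num : 0 < 2))
  have := le_of_tendsto' l5 key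
  linarith

/-- the constant of the scale of the concentration -/
noncomputable def c0 : ℝ := 1 / (4 * k5)

theorem c0_pos : 0 < c0 := by
  have := k5_pos
  unfold c0
  positivity

/-- **The energy concentrates in the high frequencies.** -/
theorem conc (hν : 0 < ν) (hT : 0 < T) (h : IsWeakSolution ν T u f)
    (hs : IsStrongBefore T u) (hM : 0 ≤ M) (hb : ∀ t ∈ Icc 0 T, nrm2 (u t) ≤ M ^ 2)
    (hd : 0 < energyDefect ν u f T) :
    ∀ᶠ t in 𝓝[<] T, ∀ N : ℕ, (N : ℝ) ^ (5 / 2 : ℝ) * M ^ 3 * (T - t)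
      ≤ c0 * energyDefect ν u f T → energyDefect ν u f T ≤ tailE (u t) (2 * N) := by
  have l1 := (WW_lim hT h).eventually (gt_mem_nhds (show (0 : ℝ) < energyDefect ν u f T / 4 by
    linarith))
  filter_upwards [Ioo_mem_nhdsLT hT, l1] with t ht h1 N hN
  have ht' : t ∈ Ico 0 T := ⟨ht.1.le, ht.2⟩
  have h2 := (abs_le.mp (key_bal hν.le hT h hM hb ht' N)).2
  rw [defect_before h hs ht'] at h2
  have h3 := tailE_nonneg (u T) (2 * N)
  have h4 := mul_nonneg hν.le (ens_rest_nonneg hT.le h ⟨ht.1.le, ht.2.le⟩ (bl (2 * N))).1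
  have h5 : k5 * ((N : ℝ) ^ (5 / 2 : ℝ) * M ^ 3 * (T - t)) ≤ energyDefect ν u f T / 4 := by
    have h6 := mul_le_mul_of_nonneg_left hN k5_pos.le
    have h7 : k5 * (c0 * energyDefect ν u f T) = energyDefect ν u f T / 4 := by
      have := k5_pos
      unfold c0
      field_simp
    linarith
  linarith

/-- the norm of order `1/2` -/
noncomputable def PP (v : Fld) : ℝ := ∑' k, √(nsq k) * msq v k

theorem PP_ge {v : Fld} (hv : Summable (msq v)) (h1 : Summable fun k => √(nsq k) * msq v k)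
    (N : ℕ) : N * tailE v N ≤ PP v := by
  unfold tailE PP
  rw [← tsum_mul_left]
  refine ((hv.indicator _).mul_left _).tsum_le_tsum (fun k => ?_) h1
  by_cases hk : k ∈ {k : Wv | (N : ℝ) ^ 2 < nsq k}
  · rw [indicator_of_mem hk]
    have h2 : (N : ℝ) ≤ √(nsq k) := Real.le_sqrt_of_sq_le (le_of_lt hk)
    exact mul_le_mul_of_nonneg_right h2 (msq_nonneg v k)
  · rw [indicator_of_notMem hk, mul_zero]
    exact mul_nonneg (Real.sqrt_nonneg _) (msq_nonneg v k)

/-- the bound of the difference of the two norms -/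
noncomputable def C1 (T : ℝ) (u f : ℝ → Fld) : ℝ :=
  |∑' k, he (u 0) k| + 2 * ∑' k, ∫ τ in (0 : ℝ)..T, |hw (f τ) (u τ) k|

theorem diff_le (hT : 0 < T) (h : IsWeakSolution ν T u f) (hs : IsStrongBefore T u) {t : ℝ}
    (ht : t ∈ Ioo 0 T) : |XX ν u 1 t - XX ν u (-1) t| ≤ C1 T u f := by
  have h1 := restrict h ht.1.le ht.2.le
  have h2 := XX_diff ht.1.le h1 (strongOn hs ht.1 ht.2) (t := t) ⟨ht.1.le, le_rfl⟩
  rw [h2]
  have h3 := series hT.le (hw_ii hT.le h) (sum_hw hT.le h) le_rfl ht.1.le ht.2.le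
  have h4 : |∫ s in (0 : ℝ)..t, ∑' k, hw (f s) (u s) k|
      ≤ ∑' k, ∫ τ in (0 : ℝ)..T, |hw (f τ) (u τ) k| := by
    rw [← h3.tsum_eq, ← Real.norm_eq_abs]
    refine tsum_of_norm_bounded (sum_hw hT.le h).hasSum fun k => ?_
    rw [Real.norm_eq_abs]
    refine (intervalIntegral.abs_integral_le_integral_abs ht.1.le).trans ?_
    refine intervalIntegral.integral_mono_interval le_rfl ht.1.le ht.2.le ?_ (hw_ii hT.le h k).abs
    exact Eventually.of_forall fun s => abs_nonneg _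
  unfold C1
  calc |∑' k, he (u 0) k + 2 * ∫ s in (0 : ℝ)..t, ∑' k, hw (f s) (u s) k|
      ≤ |∑' k, he (u 0) k| + |2 * ∫ s in (0 : ℝ)..t, ∑' k, hw (f s) (u s) k| := abs_add_le _ _
    _ = |∑' k, he (u 0) k| + 2 * |∫ s in (0 : ℝ)..t, ∑' k, hw (f s) (u s) k| := by
        rw [abs_mul, abs_two]
    _ ≤ _ := by linarith

theorem sum_ge (hν : 0 < ν) (h : IsWeakSolution ν T u f) (hs : IsStrongBefore T u) {t : ℝ}
    (ht : t ∈ Ioo 0 T) : PP (u t) ≤ XX ν u 1 t + XX ν u (-1) t :=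
  XX_sum hν.le ht.1.le (restrict h ht.1.le ht.2.le) (strongOn hs ht.1 ht.2) ⟨ht.1.le, le_rfl⟩

/-- the constant of the lower bound -/
noncomputable def c2 : ℝ := c0 ^ (2 / 5 : ℝ) / 8

theorem c2_pos : 0 < c2 := by
  have := c0_pos
  unfold c2
  positivity

/-- **Both helical components blow up.** -/
theorem blow (hν : 0 < ν) (hT : 0 < T) (h : IsWeakSolution ν T u f)
    (hs : IsStrongBefore T u) (hM : 0 < M) (hb : ∀ t ∈ Icc 0 T, nrm2 (u t) ≤ M ^ 2)
    (hd : 0 < energyDefect ν u f T) {σ : ℝ} (hσ : σ = 1 ∨ σ = -1) :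
    ∀ᶠ t in 𝓝[<] T, c2 * (energyDefect ν u f T) ^ (7 / 5 : ℝ) * M ^ (-(6 / 5) : ℝ)
      * (T - t) ^ (-(2 / 5) : ℝ) ≤ XX ν u σ t := by
  set δ := energyDefect ν u f T with hδ
  have hc0 := c0_pos
  -- the scale
  have l1 : Tendsto (fun t : ℝ => (c0 * δ / M ^ 3 / (T - t)) ^ (2 / 5 : ℝ)) (𝓝[<] T) atTop := by
    refine (tendsto_rpow_atTop (by norm_num)).comp ?_
    have h1 : Tendsto (fun t : ℝ => (T - t)⁻¹) (𝓝[<] T) atTop :=
      tendsto_inv_nhdsGT_zero.comp (sub_lim T)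
    have h2 := h1.const_mul_atTop (show 0 < c0 * δ / M ^ 3 by positivity)
    exact h2
  have l2 := l1.eventually (eventually_ge_atTop (max 1 (4 * C1 T u f / δ)))
  filter_upwards [Ioo_mem_nhdsLT hT, conc hν hT h hs hM.le hb hd, l2] with t ht h1 h2
  have hτ : 0 < T - t := sub_pos.mpr ht.2
  set x := (c0 * δ / M ^ 3 / (T - t)) ^ (2 / 5 : ℝ) with hx
  have hx1 : 1 ≤ x := (le_max_left _ _).trans h2
  have hx2 : 4 * C1 T u f ≤ x * δ := by
    have := (le_max_right _ _).trans h2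
    rwa [div_le_iff₀ hd] at this
  obtain ⟨N, hN⟩ : ∃ N : ℕ, N = ⌊x⌋₊ := ⟨_, rfl⟩
  have hN1 : (N : ℝ) ≤ x := by rw [hN]; exact Nat.floor_le (by linarith)
  have hN2 : x < N + 1 := by rw [hN]; exact Nat.lt_floor_add_one x
  have hN3 : 1 ≤ N := by
    rw [hN, Nat.one_le_floor_iff]
    exact hx1
  have hN3' : (1 : ℝ) ≤ N := by exact_mod_cast hN3
  have hN4 : x / 2 ≤ N := by linarith
  have h3 : (N : ℝ) ^ (5 / 2 : ℝ) * M ^ 3 * (T - t) ≤ c0 * δ := by
    have e1 : (N : ℝ) ^ (5 / 2 : ℝ) ≤ c0 * δ / M ^ 3 / (T - t) := by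
      calc (N : ℝ) ^ (5 / 2 : ℝ) ≤ x ^ (5 / 2 : ℝ) :=
            Real.rpow_le_rpow (Nat.cast_nonneg N) hN1 (by norm_num)
        _ = _ := by
            rw [hx, ← Real.rpow_mul (by positivity)]
            norm_num
    calc (N : ℝ) ^ (5 / 2 : ℝ) * M ^ 3 * (T - t)
        ≤ (c0 * δ / M ^ 3 / (T - t)) * M ^ 3 * (T - t) := by gcongr
      _ = c0 * δ := by field_simp
  have ht0 : t ∈ Icc 0 T := ⟨ht.1.le, ht.2.le⟩
  have h4 : δ ≤ tailE (u t) N :=
    (h1 N h3).trans (tailE_anti (summable_msq h ht0) (by omega))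
  have hst : IsStrongOn t u := strongOn hs ht.1 ht.2
  have hsq : Summable fun k => √(nsq k) * msq (u t) k :=
    Summable.of_nonneg_of_le (fun k => mul_nonneg (Real.sqrt_nonneg _) (msq_nonneg _ _))
      (fun k => mul_le_mul_of_nonneg_right (sqrt_nsq_le k) (msq_nonneg _ _))
      (summable_ens hst ⟨ht.1.le, le_rfl⟩)
  have h5 := PP_ge (summable_msq h ht0) hsq N
  have h6 : x / 2 * δ ≤ N * tailE (u t) N := mul_le_mul hN4 h4 hd.le (by linarith)
  have h7 := abs_le.mp (diff_le hT h hs ht)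
  have h8 := sum_ge hν h hs ht
  have h9 : x * δ / 8 ≤ XX ν u σ t := by
    rcases hσ with rfl | rfl
    · linarith [h7.1, h7.2]
    · linarith [h7.1, h7.2]
  refine le_trans (le_of_eq ?_) h9
  have e2 : x = c0 ^ (2 / 5 : ℝ) * δ ^ (2 / 5 : ℝ) * M ^ (-(6 / 5) : ℝ)
      * (T - t) ^ (-(2 / 5) : ℝ) := by
    rw [hx, Real.div_rpow (by positivity) hτ.le, Real.div_rpow (by positivity) (by positivity),
      Real.mul_rpow hc0.le hd.le, Real.rpow_neg hτ.le, ← Real.rpow_natCast M 3,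
      ← Real.rpow_mul hM.le, Real.rpow_neg hM.le]
    norm_num
    rfl
  have e3 : δ ^ (7 / 5 : ℝ) = δ ^ (2 / 5 : ℝ) * δ := by
    conv_rhs => rw [← Real.rpow_one δ]
    rw [← Real.rpow_mul hd.le, ← Real.rpow_add hd]
    norm_num
  rw [e2, e3]
  unfold c2
  ring

/-- the criterion -/
theorem criterion (hν : 0 < ν) (hT : 0 < T) (h : IsWeakSolution ν T u f)
    (hs : IsStrongBefore T u) {σ : ℝ} (hσ : σ = 1 ∨ σ = -1)
    (hf : ∀ ε : ℝ, 0 < ε → ∃ᶠ t in 𝓝[<] T, XX ν u σ t ≤ ε * (T - t) ^ (-(2 / 5) : ℝ)) :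
    ∀ t ∈ Icc 0 T, energyDefect ν u f t = 0 := by
  intro t ht
  rcases ht.2.lt_or_eq with h1 | h1
  · exact defect_before h hs ⟨ht.1, h1⟩
  · rw [h1]
    obtain ⟨C, hC0, hC⟩ := exists_bound h
    have hM : 0 < √C + 1 := by positivity
    have hb : ∀ t ∈ Icc 0 T, nrm2 (u t) ≤ (√C + 1) ^ 2 := by
      intro t ht
      have h2 := Real.sq_sqrt hC0
      have h3 := Real.sqrt_nonneg C
      have h4 := hC t ht
      nlinarith
    by_contra hne
    have hd : 0 < energyDefect ν u f T :=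
      lt_of_le_of_ne (defect_nonneg hν hT h hs hM.le hb) (Ne.symm hne)
    have h2 := blow hν hT h hs hM hb hd hσ
    have hp : 0 < c2 * (energyDefect ν u f T) ^ (7 / 5 : ℝ) * (√C + 1) ^ (-(6 / 5) : ℝ) := by
      have := c2_pos
      positivity
    have h3 := hf _ (half_pos hp)
    obtain ⟨s, h4, h5, h6⟩ := (h3.and_eventually (h2.and self_mem_nhdsWithin)).exists
    have h7 : 0 < (T - s) ^ (-(2 / 5) : ℝ) := Real.rpow_pos_of_pos (sub_pos.mpr h6) _
    have h8 := mul_pos hp h7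
    linarith

end main

/-- `u = u⁺ + u⁻` -/
theorem hel_add (v : Fld) (k : Wv) (j : Fin 3) : hel 1 v k j + hel (-1) v k j = v k j := by
  unfold hel
  push_cast
  ring

end Pool.Agent.Helper30.HL
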